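import Pool.Agent.Lib.H41I.Defs
import Pool.Agent.Lib.H6V.M2

/-!
# H41I, chunk A10 (S/M): a cusp form on `Γ₁(N)` satisfies `FC`

PROOF. Copy of `H6V.frm_of_cusp` (Lib/H6V/M2.lean) with complex coefficients: `zero`: `CuspFormClass.qExpansion_coeff_zero`; `sum`: `H6V.cusp_sum`; `growth`: the terms of the summable series are bounded; `trans`: as there
(`ev (PowerSeries.mk a) τ = f τ`).
-/

namespace H41I

open H53M H94M H53N H6V UpperHalfPlane
open scoped MatrixGroups ModularForm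

private theorem a10_ev (N k : ℕ) (hN : N ≠ 0) (f : CuspForm (Gm1 N) (k : ℤ)) (a : ℕ → ℂ)
    (ha : ∀ n, PowerSeries.coeff n (qExpansion 1 (f : ℍ → ℂ)) = a n) (τ : ℍ) :
    ev (PowerSeries.mk a) (τ : ℂ) = f τ := by
  haveI : NeZero N := ⟨hN⟩
  have h1 := ModularForm.hasSum_qExpansion (f := f) one_pos (k := (k : ℤ))
    (one_mem_strictPeriodsG1 N) τ
  refine HasSum.tsum_eq (h1.congr_fun fun n => ?_)
  rw [ha, PowerSeries.coeff_mk, Function.Periodic.qParam, ← Complex.exp_nat_mul]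
  congr 2
  push_cast
  ring

theorem fc_of_cusp (N k : ℕ) (hN : N ≠ 0) (hk : 4 ≤ k) (f : CuspForm (Gm1 N) (k : ℤ)) (a : ℕ → ℂ)
    (ha : ∀ n, PowerSeries.coeff n (qExpansion 1 (f : ℍ → ℂ)) = a n) : FC N k a := by
  haveI : NeZero N := ⟨hN⟩
  have h0 : a 0 = 0 := by
    have := CuspFormClass.qExpansion_coeff_zero f one_pos (one_mem_strictPeriodsG1 N)
    rw [ha 0] at this
    exact this
  have hsum : Summable fun n : ℕ => ‖a n‖ / (n : ℝ) ^ (k - 1) := by
    refine (cusp_sum N k hk f).congr fun n => ?_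
    rw [ha n]
  refine ⟨h0, ?_, hsum, ?_⟩
  · refine ⟨∑' n : ℕ, ‖a n‖ / (n : ℝ) ^ (k - 1), k - 1, fun n => ?_⟩
    have hS0 : 0 ≤ ∑' n : ℕ, ‖a n‖ / (n : ℝ) ^ (k - 1) :=
      tsum_nonneg fun n => by positivity
    rcases Nat.eq_zero_or_pos n with rfl | hn
    · rw [h0, norm_zero]
      positivity
    · have h2 : ‖a n‖ / (n : ℝ) ^ (k - 1) ≤ ∑' n : ℕ, ‖a n‖ / (n : ℝ) ^ (k - 1) :=
        hsum.le_tsum n fun j _ => by positivity
      have hn' : (0 : ℝ) < n := by exact_mod_cast hn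
      rw [div_le_iff₀ (by positivity)] at h2
      refine h2.trans (mul_le_mul_of_nonneg_left ?_ hS0)
      exact pow_le_pow_left₀ hn'.le (by linarith) _
  · intro A B C D hdet hC hD z hz
    have hDm : (D : ZMod N) = 1 := by
      have := (ZMod.intCast_zmod_eq_zero_iff_dvd (D - 1) N).2 hD
      rw [Int.cast_sub, Int.cast_one] at this
      exact sub_eq_zero.1 this
    have hCm : (C : ZMod N) = 0 := (ZMod.intCast_zmod_eq_zero_iff_dvd C N).2 hC
    have hAm : (A : ZMod N) = 1 := by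
      have := congrArg (Int.cast : ℤ → ZMod N) hdet
      rw [Int.cast_sub, Int.cast_mul, Int.cast_mul, hDm, hCm, Int.cast_one] at this
      simpa using this
    have hmem : gam hdet ∈ CongruenceSubgroup.Gamma1 N := by
      rw [CongruenceSubgroup.Gamma1_mem]
      exact ⟨hAm, hDm, hCm⟩
    have h2 : (f : ℍ → ℂ) ∣[(k : ℤ)] (gam hdet) = (f : ℍ → ℂ) :=
      SlashInvariantForm.slash_action_eqn f _ ⟨gam hdet, hmem, rfl⟩
    have h3 := congrFun h2 ⟨z, hz⟩
    rw [ModularForm.SL_slash_apply, gam_denom] at h3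
    have h4 := a10_ev N k hN f a ha (gam hdet • (⟨z, hz⟩ : ℍ))
    have h5 := a10_ev N k hN f a ha ⟨z, hz⟩
    rw [gam_smul] at h4
    change ev (PowerSeries.mk a) ((A * z + B) / (C * z + D)) = _ at h4
    change ev (PowerSeries.mk a) z = _ at h5
    have hd := den_ne hdet hz
    rw [h4, h5, ← h3]
    change f (gam hdet • (⟨z, hz⟩ : ℍ)) = ((C : ℂ) * z + D) ^ k *
      (f (gam hdet • (⟨z, hz⟩ : ℍ)) * ((C : ℂ) * z + D) ^ (-(k : ℤ)))
    rw [zpow_neg, zpow_natCast]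
    have h7 : ((C : ℂ) * z + D) ^ k ≠ 0 := pow_ne_zero _ hd
    field_simp

end H41I
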