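import Pool.Agent.Lib.H41I.A9
import Pool.Agent.Lib.H41I.A10

/-!
# H41I, A11: the final form of the analytic independence
-/

namespace H41I

open H53M H94M H53N H6V H65Z H36D UpperHalfPlane

/-- `FC N k a` gives the structure `CF` of H65Z. -/
theorem FC.cf {N k : ℕ} (hk : 2 ≤ k) {a : ℕ → ℂ} (hF : FC N k a) : CF N (k - 2) a := by
  refine ⟨hF.zero, hF.growth, ?_⟩
  have h : k - 2 + 2 = k := by omega
  rw [h]
  exact hF.trans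

/-- Analytic independence for cusp forms on `Γ₁(N)`. -/
theorem ai_of_cusp (N k : ℕ) (hN : N ≠ 0) (hk : 4 ≤ k) (f : CuspForm (Gm1 N) (k : ℤ)) (a : ℕ → ℂ)
    (ha : ∀ n, PowerSeries.coeff n (qExpansion 1 (f : ℍ → ℂ)) = a n) (h1 : a 1 ≠ 0)
    {r : ℕ} (d : Fin r → ℕ) (hd : Function.Injective d) (hd1 : ∀ s, 1 ≤ d s) (J W : ℕ)
    (c : (Fin r → ℕ) × ℕ → ℂ) (hc : ∃ t ∈ Ix r J W, c t ≠ 0) : AA a d J W c ≠ 0 :=
  AI hN hk (fc_of_cusp N k hN hk f a ha) ⟨1, h1⟩ d hd hd1 J W c hc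

theorem cf_of_cusp (N k : ℕ) (hN : N ≠ 0) (hk : 4 ≤ k) (f : CuspForm (Gm1 N) (k : ℤ)) (a : ℕ → ℂ)
    (ha : ∀ n, PowerSeries.coeff n (qExpansion 1 (f : ℍ → ℂ)) = a n) : CF N (k - 2) a :=
  (fc_of_cusp N k hN hk f a ha).cf (by omega)

end H41I
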