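import Pool.Agent.Lib.H41I.Defs
import Pool.Agent.Lib.H6V.X1
import Pool.Agent.Lib.H94M.K2
import Pool.Agent.Lib.H6V.X3

/-!
# H41I, chunk A1 (M): the transformation law of the Eichler integral, up to a constant, complex coefficients

PROOF. Copy of `H6V.EE_const` (Lib/H6V/X3.lean) with `b : ℕ → ℂ` in place of `fun n => (a n : ℂ)` (`hF.growth`, `hF.zero`, `hF.trans` of `FC`; `al_succ` can be cited).
`EE b 0 z = ev (PowerSeries.mk b) z`: unfold, `tsum_congr`, `coeff_mk`.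
-/

namespace H41I

open H53M H94M H6V

theorem EE_zero' (b : ℕ → ℂ) (z : ℂ) : EE b 0 z = ev (PowerSeries.mk b) z := by
  unfold EE ev
  refine tsum_congr fun n => ?_
  rw [PowerSeries.coeff_mk]
  simp

theorem EE_const' {N k : ℕ} (hk : 3 ≤ k) {b : ℕ → ℂ} (hF : FC N k b) {A B C D : ℤ}
    (hdet : A * D - B * C = 1) (hNC : (N : ℤ) ∣ C) (hND : (N : ℤ) ∣ D - 1) :
    ∃ c : ℂ, ∀ z : ℂ, 0 < z.im →
      EE b 1 ((A * z + B) / (C * z + D)) =
      ∑ j ∈ Finset.range (k - 1), al k j * (C : ℂ) ^ j * (C * z + D) ^ (k - 2 - j) *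
        EE b (j + 1) z + c := by
  obtain ⟨C₀, K, hb⟩ := hF.growth
  have hb0 : b 0 = 0 := hF.zero
  obtain ⟨E, hE⟩ : ∃ E : ℕ → ℂ → ℂ, E = fun j => EE b j := ⟨_, rfl⟩
  have hEd : ∀ (j : ℕ) {z : ℂ}, 0 < z.im →
      HasDerivAt (E (j + 1)) (2 * Real.pi * Complex.I * E j z) z := by
    intro j z hz
    rw [hE]
    exact EE_deriv b C₀ K hb hb0 j hz
  have hE0 : ∀ z : ℂ, 0 < z.im → E 0 ((A * z + B) / (C * z + D)) = (C * z + D) ^ k * E 0 z := by
    intro z hz
    rw [hE]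
    simp only [EE_zero']
    exact hF.trans A B C D hdet hNC hND z hz
  obtain ⟨κ, hκ⟩ : ∃ κ : ℂ, κ = 2 * (Real.pi : ℂ) * Complex.I := ⟨_, rfl⟩
  rw [← hκ] at hEd
  obtain ⟨m, rfl⟩ : ∃ m, k = m + 2 := ⟨k - 2, by omega⟩
  have hal : ∀ j, al (m + 2) j * ((m - j : ℕ) : ℂ) + κ * al (m + 2) (j + 1) = 0 := by
    intro j
    have h1 := al_succ (m + 2) j
    rw [← hκ] at h1
    exact h1
  have hal0 : al (m + 2) 0 = 1 := by
    unfold al
    simp
  obtain ⟨G, hG⟩ : ∃ G : ℂ → ℂ, G = fun z => E 1 ((A * z + B) / (C * z + D)) -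
      ∑ j ∈ Finset.range (m + 1), al (m + 2) j * (C : ℂ) ^ j * (C * z + D) ^ (m - j) *
        E (j + 1) z := ⟨_, rfl⟩
  have hdetC : (A : ℂ) * D - B * C = 1 := by exact_mod_cast hdet
  have hder : ∀ z : ℂ, 0 < z.im → HasDerivAt G 0 z := by
    intro z hz
    have ht := den_ne hdet hz
    have hj : HasDerivAt (fun z : ℂ => (C : ℂ) * z + D) C z := by
      simpa using ((hasDerivAt_id z).const_mul (C : ℂ)).add_const (D : ℂ)
    have hn : HasDerivAt (fun z : ℂ => (A : ℂ) * z + B) A z := by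
      simpa using ((hasDerivAt_id z).const_mul (A : ℂ)).add_const (B : ℂ)
    have hmob : HasDerivAt (fun z : ℂ => ((A : ℂ) * z + B) / (C * z + D))
        (((C : ℂ) * z + D) ^ 2)⁻¹ z := by
      refine (hn.div hj ht).congr_deriv ?_
      rw [div_eq_mul_inv]
      have : (A : ℂ) * (C * z + D) - (A * z + B) * C = 1 := by linear_combination hdetC
      rw [this, one_mul]
    have h1 := (hEd 0 (mob_im_pos hdet hz)).comp z hmob
    have h2 : ∀ j ∈ Finset.range (m + 1), HasDerivAt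
        (fun z => al (m + 2) j * (C : ℂ) ^ j * (C * z + D) ^ (m - j) * E (j + 1) z)
        (al (m + 2) j * (C : ℂ) ^ j * (((m - j : ℕ) : ℂ) * (C * z + D) ^ (m - j - 1) * C) *
          E (j + 1) z + al (m + 2) j * (C : ℂ) ^ j * (C * z + D) ^ (m - j) * (κ * E j z)) z := by
      intro j _
      exact ((hj.pow (m - j)).const_mul _).mul (hEd j hz)
    have h3 := h1.sub (HasDerivAt.fun_sum h2)
    rw [hG]
    refine h3.congr_deriv ?_
    rw [hE0 z hz, Finset.sum_add_distrib, Finset.sum_range_succ,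
      Finset.sum_range_succ' (fun j => al (m + 2) j * (C : ℂ) ^ j * (C * z + D) ^ (m - j) *
        (κ * E j z))]
    have h4 : ∑ j ∈ Finset.range m, al (m + 2) j * (C : ℂ) ^ j *
        (((m - j : ℕ) : ℂ) * (C * z + D) ^ (m - j - 1) * C) * E (j + 1) z +
        ∑ j ∈ Finset.range m, al (m + 2) (j + 1) * (C : ℂ) ^ (j + 1) *
          (C * z + D) ^ (m - (j + 1)) * (κ * E (j + 1) z) = 0 := by
      rw [← Finset.sum_add_distrib]
      refine Finset.sum_eq_zero fun j _ => ?_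
      have e1 : m - (j + 1) = m - j - 1 := by omega
      rw [e1]
      linear_combination ((C : ℂ) ^ (j + 1) * (C * z + D) ^ (m - j - 1) * E (j + 1) z) * hal j
    have h5 : κ * (((C : ℂ) * z + D) ^ (m + 2) * E 0 z) * (((C : ℂ) * z + D) ^ 2)⁻¹ =
        (C * z + D) ^ m * (κ * E 0 z) := by
      have h6 : (((C : ℂ) * z + D) ^ 2) ≠ 0 := pow_ne_zero 2 ht
      rw [pow_add]
      field_simp
    rw [h5, Nat.sub_self, Nat.cast_zero, hal0, Nat.sub_zero]
    linear_combination (-1 : ℂ) * h4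
  have hopen : IsOpen {z : ℂ | 0 < z.im} := isOpen_lt continuous_const Complex.continuous_im
  have hconv : Convex ℝ {z : ℂ | 0 < z.im} := convex_halfSpace_im_gt 0
  have hconst : ∀ z : ℂ, 0 < z.im → G z = G Complex.I := by
    intro z hz
    exact hopen.is_const_of_deriv_eq_zero hconv.isPreconnected
      (fun w hw => (hder w hw).differentiableAt.differentiableWithinAt)
      (fun w hw => (hder w hw).deriv) hz (by simp : Complex.I ∈ {z : ℂ | 0 < z.im})
  refine ⟨G Complex.I, fun z hz => ?_⟩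
  have h7 := hconst z hz
  have h8 : G z = E 1 ((A * z + B) / (C * z + D)) -
      ∑ j ∈ Finset.range (m + 1), al (m + 2) j * (C : ℂ) ^ j * (C * z + D) ^ (m - j) *
        E (j + 1) z := by rw [hG]
  rw [h8] at h7
  have e2 : m + 2 - 1 = m + 1 := by omega
  have e3 : ∀ j, m + 2 - 2 - j = m - j := fun j => by omega
  simp only [e2, e3]
  rw [← h7, hE]
  ring

end H41I
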