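import Pool.Agent.Lib.H41I.A1
import Pool.Agent.Lib.H6V.X3B
import Pool.Agent.Lib.H6V.X7

/-!
# H41I, chunk A2 (S/M): the constant, complex coefficients; non-constancy of the boundary function

PROOF. `EE_trans'`: copy of `H6V.EE_trans` (Lib/H6V/X3B.lean) with `b : ℕ → ℂ` (`hF.growth`, `hF.zero`, `hF.sum` of `FC`).
`EE_noconst'`: copy of `H6V.EE_noconst` (Lib/H6V/X7.lean) with the index `n₀ ≥ 1` in place of `1` (multiply by `e(-n₀ x)` and integrate: `b n₀ / n₀^K = 0`).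
-/

namespace H41I

open H53M H94M H6V Filter Topology

private theorem A2_tend {C : ℝ} (hC : 0 < C) :
    Tendsto (fun y : ℝ => (C ^ 2 * y)⁻¹) (𝓝[>] 0) atTop := by
  have h1 : Tendsto (fun y : ℝ => (C ^ 2)⁻¹ * y⁻¹) (𝓝[>] 0) atTop :=
    tendsto_inv_nhdsGT_zero.const_mul_atTop (by positivity)
  refine h1.congr fun y => ?_
  rw [mul_inv]

private theorem A2_mob {A B C D y : ℝ} (hC : 0 < C) (hy : 0 < y) (hdet : A * D - B * C = 1) :
    ((A : ℂ) * (((-D / C : ℝ) : ℂ) + y * Complex.I) + B) /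
      (C * (((-D / C : ℝ) : ℂ) + y * Complex.I) + D) =
      ((A / C : ℝ) : ℂ) + (((C ^ 2 * y)⁻¹ : ℝ) : ℂ) * Complex.I := by
  have hC' : (C : ℂ) ≠ 0 := by exact_mod_cast hC.ne'
  have hy' : (y : ℂ) ≠ 0 := by exact_mod_cast hy.ne'
  have hd : (A : ℂ) * D - B * C = 1 := by exact_mod_cast hdet
  have hI : Complex.I * Complex.I = -1 := Complex.I_mul_I
  have hden : (C : ℂ) * (((-D / C : ℝ) : ℂ) + y * Complex.I) + D = C * y * Complex.I := by
    push_cast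
    field_simp
    ring
  have hne : (C : ℂ) * y * Complex.I ≠ 0 := mul_ne_zero (mul_ne_zero hC' hy') Complex.I_ne_zero
  rw [hden, div_eq_iff hne]
  push_cast
  field_simp
  ring_nf
  rw [Complex.I_sq]
  linear_combination (-1 : ℂ) * hd

theorem EE_trans' {N k : ℕ} (hk : 3 ≤ k) {b : ℕ → ℂ} (hF : FC N k b) {A B C D : ℤ}
    (hdet : A * D - B * C = 1) (hNC : (N : ℤ) ∣ C) (hND : (N : ℤ) ∣ D - 1) (hC : 0 < C) {z : ℂ}
    (hz : 0 < z.im) :
    EE b 1 ((A * z + B) / (C * z + D)) =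
      ∑ j ∈ Finset.range (k - 1), al k j * (C : ℂ) ^ j * (C * z + D) ^ (k - 2 - j) *
        EE b (j + 1) z -
      al k (k - 2) * (C : ℂ) ^ (k - 2) *
        EE b (k - 1) ((-(D : ℝ) / (C : ℝ) : ℝ) : ℂ) := by
  obtain ⟨c, hc⟩ := EE_const' hk hF hdet hNC hND
  obtain ⟨C₀, K, hgr⟩ := hF.growth
  have hb : ∀ n, ‖b n‖ ≤ C₀ * ((n : ℝ) + 1) ^ K := hgr
  have hb0 : b 0 = 0 := hF.zero
  have hs : Summable fun n : ℕ => ‖b n‖ / (n : ℝ) ^ (k - 1) := hF.sum
  have hCr : (0 : ℝ) < (C : ℝ) := by exact_mod_cast hC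
  have hdr : (A : ℝ) * D - B * C = 1 := by exact_mod_cast hdet
  obtain ⟨x, hx⟩ : ∃ x : ℝ, x = -(D : ℝ) / (C : ℝ) := ⟨_, rfl⟩
  obtain ⟨E, hE⟩ : ∃ E : ℕ → ℂ → ℂ, E = fun j => EE b j := ⟨_, rfl⟩
  obtain ⟨m, rfl⟩ : ∃ m, k = m + 2 := ⟨k - 2, by omega⟩
  have hc' : ∀ z : ℂ, 0 < z.im → E 1 ((A * z + B) / (C * z + D)) =
      ∑ j ∈ Finset.range (m + 1), al (m + 2) j * (C : ℂ) ^ j * (C * z + D) ^ (m - j) *
        E (j + 1) z + c := by
    intro z hz
    rw [hE]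
    exact hc z hz
  -- the left side
  have hL : Tendsto (fun y : ℝ => E 1 ((A * ((x : ℂ) + y * Complex.I) + B) /
      (C * ((x : ℂ) + y * Complex.I) + D))) (𝓝[>] 0) (𝓝 0) := by
    have h1 : Tendsto (fun y : ℝ => E 1 ((((A : ℝ) / (C : ℝ) : ℝ) : ℂ) + y * Complex.I))
        atTop (𝓝 0) := by
      rw [hE]
      exact EE_inf b C₀ K hb ((A : ℝ) / (C : ℝ))
    refine (h1.comp (A2_tend hCr)).congr' ?_
    filter_upwards [self_mem_nhdsWithin] with y hy
    have h2 := A2_mob hCr (Set.mem_Ioi.mp hy) hdr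
    have h3 : ((A : ℂ) * ((x : ℂ) + y * Complex.I) + B) / (C * ((x : ℂ) + y * Complex.I) + D) =
        (((A : ℝ) / (C : ℝ) : ℝ) : ℂ) + ((((C : ℝ) ^ 2 * y)⁻¹ : ℝ) : ℂ) * Complex.I := by
      rw [← h2, hx]
      push_cast
      rfl
    rw [h3]
    rfl
  -- the terms of the right side
  have hden : ∀ y : ℝ, (C : ℂ) * ((x : ℂ) + y * Complex.I) + D = C * y * Complex.I := by
    intro y
    have hC' : (C : ℂ) ≠ 0 := by exact_mod_cast hC.ne'
    rw [hx]
    push_cast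
    field_simp
    ring
  have hT : ∀ j ∈ Finset.range m, Tendsto (fun y : ℝ => al (m + 2) j * (C : ℂ) ^ j *
      (C * ((x : ℂ) + y * Complex.I) + D) ^ (m - j) * E (j + 1) ((x : ℂ) + y * Complex.I))
      (𝓝[>] 0) (𝓝 0) := by
    intro j hj
    have hjm : j < m := Finset.mem_range.mp hj
    have h1 : Tendsto (fun y : ℝ => (y : ℂ) ^ (m - j) * E (j + 1) ((x : ℂ) + y * Complex.I))
        (𝓝[>] 0) (𝓝 0) := by
      have h2 := EE_lim b (m + 2 - 1) (m - j) (by omega) (by omega) hb0 hs x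
      have h3 : m + 2 - 1 - (m - j) = j + 1 := by omega
      rw [h3] at h2
      rw [hE]
      exact h2
    have h4 := h1.const_mul (al (m + 2) j * (C : ℂ) ^ j * ((C : ℂ) * Complex.I) ^ (m - j))
    rw [mul_zero] at h4
    refine h4.congr fun y => ?_
    rw [hden y, show (C : ℂ) * y * Complex.I = (C * Complex.I) * y by ring, mul_pow]
    ring
  have hS : Tendsto (fun y : ℝ => ∑ j ∈ Finset.range m, al (m + 2) j * (C : ℂ) ^ j *
      (C * ((x : ℂ) + y * Complex.I) + D) ^ (m - j) * E (j + 1) ((x : ℂ) + y * Complex.I))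
      (𝓝[>] 0) (𝓝 0) := by
    have h1 := tendsto_finsetSum (Finset.range m) hT
    rw [Finset.sum_const_zero] at h1
    exact h1
  have hM : Tendsto (fun y : ℝ => al (m + 2) m * (C : ℂ) ^ m *
      (C * ((x : ℂ) + y * Complex.I) + D) ^ (m - m) * E (m + 1) ((x : ℂ) + y * Complex.I))
      (𝓝[>] 0) (𝓝 (al (m + 2) m * (C : ℂ) ^ m * E (m + 1) (x : ℂ))) := by
    have h1 : Tendsto (fun y : ℝ => E (m + 1) ((x : ℂ) + y * Complex.I)) (𝓝[>] 0)
        (𝓝 (E (m + 1) (x : ℂ))) := by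
      rw [hE]
      exact EE_lim0 b (m + 1) (by omega) hs x
    refine (h1.const_mul (al (m + 2) m * (C : ℂ) ^ m)).congr fun y => ?_
    rw [Nat.sub_self, pow_zero, mul_one]
  have hR : Tendsto (fun y : ℝ => E 1 ((A * ((x : ℂ) + y * Complex.I) + B) /
      (C * ((x : ℂ) + y * Complex.I) + D))) (𝓝[>] 0)
      (𝓝 (0 + al (m + 2) m * (C : ℂ) ^ m * E (m + 1) (x : ℂ) + c)) := by
    refine ((hS.add hM).add_const c).congr' ?_
    filter_upwards [self_mem_nhdsWithin] with y hy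
    have hz' : 0 < ((x : ℂ) + y * Complex.I).im := by
      simpa using hy
    rw [hc' _ hz', Finset.sum_range_succ]
  have hu := tendsto_nhds_unique hL hR
  have hcc : c = -(al (m + 2) m * (C : ℂ) ^ m * E (m + 1) (x : ℂ)) := by
    linear_combination (-1 : ℂ) * hu
  have hfin := hc' z hz
  rw [hcc] at hfin
  rw [← sub_eq_add_neg, hE, hx] at hfin
  exact hfin

private theorem A2_norm (b : ℕ → ℂ) (K n : ℕ) (x : ℝ) :
    ‖b n * ((n : ℂ) ^ K)⁻¹ * Complex.exp (2 * Real.pi * Complex.I * (n * (x : ℂ)))‖ =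
      ‖b n‖ / (n : ℝ) ^ K := by
  have h1 : ‖Complex.exp (2 * Real.pi * Complex.I * (n * (x : ℂ)))‖ = 1 := by
    rw [Complex.norm_exp]
    have : (2 * Real.pi * Complex.I * (n * (x : ℂ))).re = 0 := by
      simp [Complex.mul_re, Complex.mul_im]
    rw [this, Real.exp_zero]
  rw [norm_mul, norm_mul, h1, mul_one, norm_inv, norm_pow, Complex.norm_natCast, div_eq_mul_inv]

private theorem A2_int_zero (k : ℤ) (hk : k ≠ 0) :
    ∫ x in (0 : ℝ)..1, Complex.exp ((2 * Real.pi * Complex.I * (k : ℂ)) * (x : ℂ)) = 0 := by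
  have hc : (2 * Real.pi * Complex.I * (k : ℂ)) ≠ 0 := by
    have h1 : (Real.pi : ℂ) ≠ 0 := Complex.ofReal_ne_zero.2 Real.pi_ne_zero
    have h2 : (k : ℂ) ≠ 0 := Int.cast_ne_zero.2 hk
    simp [h1, h2, Complex.I_ne_zero]
  rw [integral_exp_mul_complex hc]
  have h3 : (2 * Real.pi * Complex.I * (k : ℂ)) * ((1 : ℝ) : ℂ) =
      (k : ℂ) * (2 * Real.pi * Complex.I) := by
    push_cast
    ring
  rw [h3, Complex.exp_int_mul_two_pi_mul_I]
  simp

private theorem A2_term (b : ℕ → ℂ) (K n₀ n : ℕ) :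
    ∫ x in (0 : ℝ)..1, b n * ((n : ℂ) ^ K)⁻¹ *
        Complex.exp (2 * Real.pi * Complex.I * (n * (x : ℂ))) *
          Complex.exp ((2 * Real.pi * Complex.I * ((-(n₀ : ℤ) : ℤ) : ℂ)) * (x : ℂ)) =
      if n = n₀ then b n₀ * ((n₀ : ℂ) ^ K)⁻¹ else 0 := by
  have h : ∀ x : ℝ, b n * ((n : ℂ) ^ K)⁻¹ *
        Complex.exp (2 * Real.pi * Complex.I * (n * (x : ℂ))) *
          Complex.exp ((2 * Real.pi * Complex.I * ((-(n₀ : ℤ) : ℤ) : ℂ)) * (x : ℂ)) =
      b n * ((n : ℂ) ^ K)⁻¹ *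
        Complex.exp ((2 * Real.pi * Complex.I * (((n : ℤ) - n₀ : ℤ) : ℂ)) * (x : ℂ)) := by
    intro x
    rw [mul_assoc, ← Complex.exp_add]
    congr 2
    push_cast
    ring
  simp_rw [h]
  rw [intervalIntegral.integral_const_mul]
  by_cases hn : n = n₀
  · subst hn
    simp
  · rw [A2_int_zero _ (by omega), mul_zero, if_neg hn]

theorem EE_noconst' (b : ℕ → ℂ) (K : ℕ) (hK : 1 ≤ K)
    (hs : Summable fun n : ℕ => ‖b n‖ / (n : ℝ) ^ K) (n₀ : ℕ) (hn₀ : 1 ≤ n₀) (h1 : b n₀ ≠ 0)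
    (c : ℂ) : ¬ ∀ x : ℝ, EE b K (x : ℂ) = c := by
  intro hc
  have _ := hK
  have hE : ∀ x : ℝ,
      ‖Complex.exp ((2 * Real.pi * Complex.I * ((-(n₀ : ℤ) : ℤ) : ℂ)) * (x : ℂ))‖ = 1 := by
    intro x
    rw [Complex.norm_exp]
    have : ((2 * Real.pi * Complex.I * ((-(n₀ : ℤ) : ℤ) : ℂ)) * (x : ℂ)).re = 0 := by
      simp [Complex.mul_re, Complex.mul_im]
    rw [this, Real.exp_zero]
  have key : HasSum (fun n : ℕ => ∫ x in (0 : ℝ)..1, b n * ((n : ℂ) ^ K)⁻¹ *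
        Complex.exp (2 * Real.pi * Complex.I * (n * (x : ℂ))) *
          Complex.exp ((2 * Real.pi * Complex.I * ((-(n₀ : ℤ) : ℤ) : ℂ)) * (x : ℂ)))
      (∫ x in (0 : ℝ)..1,
        c * Complex.exp ((2 * Real.pi * Complex.I * ((-(n₀ : ℤ) : ℤ) : ℂ)) * (x : ℂ))) := by
    refine intervalIntegral.hasSum_integral_of_dominated_convergence
      (fun n _ => ‖b n‖ / (n : ℝ) ^ K) ?_ ?_ ?_ ?_ ?_
    · intro n
      refine Continuous.aestronglyMeasurable ?_
      fun_prop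
    · intro n
      refine Filter.Eventually.of_forall fun x _ => ?_
      rw [norm_mul, A2_norm, hE, mul_one]
    · exact Filter.Eventually.of_forall fun x _ => hs
    · exact intervalIntegrable_const
    · refine Filter.Eventually.of_forall fun x _ => ?_
      have hsum : Summable fun n : ℕ => b n * ((n : ℂ) ^ K)⁻¹ *
          Complex.exp (2 * Real.pi * Complex.I * (n * (x : ℂ))) := by
        refine Summable.of_norm ?_
        simp_rw [A2_norm]
        exact hs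
      have h2 := hsum.hasSum
      have h3 : (∑' n : ℕ, b n * ((n : ℂ) ^ K)⁻¹ *
          Complex.exp (2 * Real.pi * Complex.I * (n * (x : ℂ)))) = c := hc x
      rw [h3] at h2
      exact h2.mul_right _
  simp_rw [A2_term] at key
  rw [intervalIntegral.integral_const_mul, A2_int_zero (-(n₀ : ℤ)) (by omega), mul_zero] at key
  have h4 : HasSum (fun n : ℕ => if n = n₀ then b n₀ * ((n₀ : ℂ) ^ K)⁻¹ else 0)
      (b n₀ * ((n₀ : ℂ) ^ K)⁻¹) := hasSum_ite_eq n₀ _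
  have h5 := h4.unique key
  have h6 : ((n₀ : ℂ) ^ K)⁻¹ ≠ 0 := by
    apply inv_ne_zero
    apply pow_ne_zero
    exact Nat.cast_ne_zero.2 (by omega)
  exact (mul_ne_zero h1 h6) h5

end H41I
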