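import Pool.Agent.Lib.H41I.Defs

/-!
# H41I, chunk A3 (M): the algebra `RR`

PROOF. `t_ne`: if `C z + D = 0` the imaginary part gives `C im z = 0`, so `C = 0`, then `D = 0`.
`RR_deriv`: `Algebra.adjoin_induction`: the property `P Φ : ∃ Ψ ∈ RR, ∀ e ≠ 0, ∀ z, 0 < z.im → HasDerivAt (Φ e) (Ψ e z) z` holds for the generators (`g`: `Ψ = fun _ z => deriv g z`, `deriv g` is holomorphic on the open set
`{0 < im}`, `DifferentiableOn.deriv`; `C`: `0`; `t`: `fun e _ => e.1`; `t⁻¹`: `- C (t⁻¹)^2`, `HasDerivAt.inv`), for `algebraMap r` (`0`), sums, products (`HasDerivAt.mul`; `Ψ₁ Φ₂ + Φ₁ Ψ₂ ∈ RR`).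
`RR_poly`: `Algebra.adjoin_induction` with `P Φ : ∃ M p, ∀ e ≠ 0, Φ e z * t^M = ...` for the fixed `z`: `g`: `M = 0`, `p = C (C (g z))`; `C`: `p = C X`; `t`: `p = X`; `t⁻¹`: `M = 1`, `p = 1` (`t_ne`); sums: `M₁ + M₂`,
`p₁ X^M₂ + p₂ X^M₁`; products: `M₁ + M₂`, `p₁ p₂`; constants.
-/

namespace H41I

open Polynomial

private theorem A3_open : IsOpen {z : ℂ | 0 < z.im} := isOpen_lt continuous_const Complex.continuous_im

private theorem A3_lin (e : ℤ × ℤ) (z : ℂ) :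
    HasDerivAt (fun z : ℂ => (e.1 : ℂ) * z + e.2) (e.1 : ℂ) z := by
  have h := ((hasDerivAt_id z).const_mul (e.1 : ℂ)).add_const (e.2 : ℂ)
  simpa using h

theorem t_ne {e : ℤ × ℤ} (he : e ≠ 0) {z : ℂ} (hz : 0 < z.im) : (e.1 : ℂ) * z + e.2 ≠ 0 := by
  intro h
  have him : (e.1 : ℝ) * z.im = 0 := by
    have h2 := congrArg Complex.im h
    simpa using h2
  have h1 : e.1 = 0 := by
    rcases mul_eq_zero.mp him with h3 | h3
    · exact_mod_cast h3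
    · exact absurd h3 hz.ne'
  have h2 : e.2 = 0 := by
    rw [h1] at h
    simpa using h
  exact he (Prod.ext h1 h2)

theorem RR_deriv {Φ : Fn} (h : Φ ∈ RR) :
    ∃ Ψ ∈ RR, ∀ e : ℤ × ℤ, e ≠ 0 → ∀ z : ℂ, 0 < z.im → HasDerivAt (Φ e) (Ψ e z) z := by
  refine Algebra.adjoin_induction (p := fun Φ _ => ∃ Ψ ∈ RR, ∀ e : ℤ × ℤ, e ≠ 0 → ∀ z : ℂ,
    0 < z.im → HasDerivAt (Φ e) (Ψ e z) z) ?_ ?_ ?_ ?_ h
  · intro Φ hΦ
    rcases hΦ with ⟨g, hg, rfl⟩ | rfl | rfl | rfl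
    · refine ⟨fun _ z => deriv g z, Algebra.subset_adjoin (Or.inl ⟨deriv g, ?_, rfl⟩), ?_⟩
      · exact hg.deriv A3_open
      · intro e _ z hz
        exact (hg.differentiableAt (A3_open.mem_nhds hz)).hasDerivAt
    · refine ⟨0, RR.zero_mem, ?_⟩
      intro e _ z _
      exact hasDerivAt_const z (e.1 : ℂ)
    · refine ⟨fun e _ => (e.1 : ℂ), Algebra.subset_adjoin (Or.inr (Or.inl rfl)), ?_⟩
      intro e _ z _
      exact A3_lin e z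
    · refine ⟨(fun e _ => (-1 : ℂ) * (e.1 : ℂ)) * ((fun e z => ((e.1 : ℂ) * z + e.2)⁻¹) *
          (fun e z => ((e.1 : ℂ) * z + e.2)⁻¹)), ?_, ?_⟩
      · refine RR.mul_mem ?_ (RR.mul_mem ?_ ?_)
        · have h1 : (fun e : ℤ × ℤ => fun _ : ℂ => (e.1 : ℂ)) ∈ RR :=
            Algebra.subset_adjoin (Or.inr (Or.inl rfl))
          exact RR.smul_mem h1 (-1 : ℂ)
        · exact Algebra.subset_adjoin (Or.inr (Or.inr (Or.inr rfl)))
        · exact Algebra.subset_adjoin (Or.inr (Or.inr (Or.inr rfl)))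
      · intro e he z hz
        have h1 := (A3_lin e z).inv (t_ne he hz)
        refine h1.congr_deriv ?_
        have h2 := t_ne he hz
        simp only [Pi.mul_apply]
        field_simp
  · intro r
    refine ⟨0, RR.zero_mem, ?_⟩
    intro e _ z _
    exact hasDerivAt_const z r
  · rintro Φ₁ Φ₂ _ _ ⟨Ψ₁, m1, h1⟩ ⟨Ψ₂, m2, h2⟩
    refine ⟨Ψ₁ + Ψ₂, RR.add_mem m1 m2, ?_⟩
    intro e he z hz
    exact (h1 e he z hz).add (h2 e he z hz)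
  · rintro Φ₁ Φ₂ g1 g2 ⟨Ψ₁, m1, h1⟩ ⟨Ψ₂, m2, h2⟩
    refine ⟨Ψ₁ * Φ₂ + Φ₁ * Ψ₂, RR.add_mem (RR.mul_mem m1 g2) (RR.mul_mem g1 m2), ?_⟩
    intro e he z hz
    exact (h1 e he z hz).mul (h2 e he z hz)

theorem RR_poly {Φ : Fn} (h : Φ ∈ RR) {z : ℂ} (hz : 0 < z.im) :
    ∃ (M : ℕ) (p : ℂ[X][X]), ∀ e : ℤ × ℤ, e ≠ 0 →
      Φ e z * ((e.1 : ℂ) * z + e.2) ^ M =
        (p.map (evalRingHom (e.1 : ℂ))).eval ((e.1 : ℂ) * z + e.2) := by
  refine Algebra.adjoin_induction (p := fun Φ _ => ∃ (M : ℕ) (p : ℂ[X][X]), ∀ e : ℤ × ℤ, e ≠ 0 →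
      Φ e z * ((e.1 : ℂ) * z + e.2) ^ M =
        (p.map (evalRingHom (e.1 : ℂ))).eval ((e.1 : ℂ) * z + e.2)) ?_ ?_ ?_ ?_ h
  · intro Φ hΦ
    rcases hΦ with ⟨g, hg, rfl⟩ | rfl | rfl | rfl
    · refine ⟨0, C (C (g z)), ?_⟩
      intro e _
      simp
    · refine ⟨0, C X, ?_⟩
      intro e _
      simp
    · refine ⟨0, X, ?_⟩
      intro e _
      simp
    · refine ⟨1, 1, ?_⟩
      intro e he
      have h2 := t_ne he hz
      simp [h2]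
  · intro r
    refine ⟨0, C (C r), ?_⟩
    intro e _
    have h1 : (algebraMap ℂ Fn r) e z = r := rfl
    rw [h1]
    simp
  · rintro Φ₁ Φ₂ _ _ ⟨M₁, p₁, h1⟩ ⟨M₂, p₂, h2⟩
    refine ⟨M₁ + M₂, p₁ * X ^ M₂ + p₂ * X ^ M₁, ?_⟩
    intro e he
    have e1 := h1 e he
    have e2 := h2 e he
    simp only [Polynomial.map_add, Polynomial.map_mul, Polynomial.map_pow, Polynomial.map_X,
      eval_add, eval_mul, eval_pow, eval_X, Pi.add_apply]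
    rw [← e1, ← e2, pow_add]
    ring
  · rintro Φ₁ Φ₂ _ _ ⟨M₁, p₁, h1⟩ ⟨M₂, p₂, h2⟩
    refine ⟨M₁ + M₂, p₁ * p₂, ?_⟩
    intro e he
    have e1 := h1 e he
    have e2 := h2 e he
    simp only [Polynomial.map_mul, eval_mul, Pi.mul_apply]
    rw [← e1, ← e2, pow_add]
    ring

end H41I
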