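import Pool.Agent.Lib.H41I.A3
import Pool.Agent.Lib.H53M.KEV
import Pool.Agent.Lib.H53M.KMF
import Pool.Agent.Lib.H94M.K2

/-!
# H41I, chunk A4 (M): quasimodular series form an algebra stable under `θ`

PROOF. `Cv_th`: for `z` with `y = im z > 0` compare with `z' = re z + i y/2`: `n e^(-2π n y) ≤ C e^(-2π n y/2)` (`n ≤ e^(n π y) / (π y)`), so `‖n f_n e(n z)‖ ≤ C ‖f_n e(n z')‖`.
`ev_th`: `ev f` has the derivative `2πi ev (θ f)`: `hasDerivAt_tsum_of_isPreconnected` on `{im > y/2}` with the bound `‖2πi‖ ‖n f_n e(n z'')‖`, `z'' = re z + i y/2` (norms of the terms depend on the imaginary part only and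
decrease), exactly as `H6V.EE_deriv` (Lib/H6V/X1.lean); `coeff_th`.
`th_mem`: `f ∈ QQ N` with `Φ`; `Ψ` from `RR_deriv`. For `γ ∈ Γ₁(N)` (`(C, D) ≠ 0` because of the determinant) differentiate `ev f (γ z) = Φ (C, D) z` (both sides agree on the open set `{0 < im}`): `2πi ev (θ f)(γ z) (C z + D)^(-2) = Ψ (C, D) z`
(`(γ z)' = (C z + D)^(-2)`, `H94M.mob_im_pos`, `H94M.den_ne`, or by hand), so `ev (θ f)(γ z) = (2πi)⁻¹ t² Ψ (C, D) z`, and `(2πi)⁻¹ • (t^2 * Ψ) ∈ RR`.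
-/

namespace H41I

open H53M PowerSeries

private theorem A4_exp (n : ℕ) (z : ℂ) :
    ‖Complex.exp (2 * Real.pi * Complex.I * (n * z))‖ = Real.exp (-(2 * Real.pi * z.im * n)) := by
  rw [Complex.norm_exp]
  congr 1
  simp
  ring

private theorem A4_bound (f : PowerSeries ℂ) {y : ℝ} (hy : 0 < y) {z z' : ℂ} (hz : y ≤ z.im) (hz' : z'.im = y / 2) (n : ℕ) :
    ‖coeff n (th ℂ f) * Complex.exp (2 * Real.pi * Complex.I * (n * z))‖ ≤
      (Real.pi * y)⁻¹ * ‖coeff n f * Complex.exp (2 * Real.pi * Complex.I * (n * z'))‖ := by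
  have hpy : 0 < Real.pi * y := mul_pos Real.pi_pos hy
  rw [norm_mul, norm_mul, A4_exp, A4_exp, coeff_th, norm_mul, Complex.norm_natCast, hz']
  have h1 : Real.exp (-(2 * Real.pi * z.im * n)) ≤ Real.exp (-(2 * Real.pi * y * n)) := by
    apply Real.exp_le_exp.2
    have h3 : 2 * Real.pi * y * n ≤ 2 * Real.pi * z.im * n :=
      mul_le_mul_of_nonneg_right
        (mul_le_mul_of_nonneg_left hz (by positivity)) (Nat.cast_nonneg n)
    linarith
  have h2 : (n : ℝ) * Real.exp (-(2 * Real.pi * y * n)) ≤ (Real.pi * y)⁻¹ * Real.exp (-(2 * Real.pi * (y / 2) * n)) := by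
    have h4 : Real.exp (-(2 * Real.pi * y * n)) = Real.exp (-(Real.pi * y * n)) * Real.exp (-(2 * Real.pi * (y / 2) * n)) := by
      rw [← Real.exp_add]
      congr 1
      ring
    have h5 : Real.pi * y * n * Real.exp (-(Real.pi * y * n)) ≤ 1 := by
      have h6 : Real.pi * y * n ≤ Real.exp (Real.pi * y * n) := by
        have := Real.add_one_le_exp (Real.pi * y * n)
        linarith
      rw [Real.exp_neg]
      have h7 := Real.exp_pos (Real.pi * y * n)
      rw [← div_eq_mul_inv, div_le_one h7]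
      exact h6
    rw [h4]
    have h8 := Real.exp_pos (-(2 * Real.pi * (y / 2) * n))
    have h9 : (n : ℝ) * Real.exp (-(Real.pi * y * n)) ≤ (Real.pi * y)⁻¹ := by
      rw [inv_eq_one_div, le_div_iff₀ hpy]
      linarith
    calc (n : ℝ) * (Real.exp (-(Real.pi * y * n)) * Real.exp (-(2 * Real.pi * (y / 2) * n)))
        = ((n : ℝ) * Real.exp (-(Real.pi * y * n))) * Real.exp (-(2 * Real.pi * (y / 2) * n)) := by ring
      _ ≤ _ := mul_le_mul_of_nonneg_right h9 h8.le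
  calc (n : ℝ) * ‖coeff n f‖ * Real.exp (-(2 * Real.pi * z.im * n))
      ≤ (n : ℝ) * ‖coeff n f‖ * Real.exp (-(2 * Real.pi * y * n)) := mul_le_mul_of_nonneg_left h1 (by positivity)
    _ = ‖coeff n f‖ * ((n : ℝ) * Real.exp (-(2 * Real.pi * y * n))) := by ring
    _ ≤ ‖coeff n f‖ * ((Real.pi * y)⁻¹ * Real.exp (-(2 * Real.pi * (y / 2) * n))) := mul_le_mul_of_nonneg_left h2 (norm_nonneg _)
    _ = _ := by ring

theorem Cv_th {f : PowerSeries ℂ} (hf : Cv f) : Cv (th ℂ f) := by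
  intro z hz
  have hz' : 0 < (⟨z.re, z.im / 2⟩ : ℂ).im := half_pos hz
  exact Summable.of_nonneg_of_le (fun n => norm_nonneg _)
    (fun n => A4_bound f hz le_rfl (z' := ⟨z.re, z.im / 2⟩) rfl n) ((hf _ hz').mul_left _)

theorem ev_th {f : PowerSeries ℂ} (hf : Cv f) {z : ℂ} (hz : 0 < z.im) :
    HasDerivAt (ev f) (2 * Real.pi * Complex.I * ev (th ℂ f) z) z := by
  have hε : 0 < z.im / 2 := by linarith
  have hzε : z.im / 2 < z.im := by linarith
  have hz' : 0 < (⟨z.re, z.im / 2 / 2⟩ : ℂ).im := half_pos hε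
  have hd := hasDerivAt_tsum_of_isPreconnected
    (g := fun (n : ℕ) (y : ℂ) => coeff n f * Complex.exp (2 * Real.pi * Complex.I * (n * y)))
    (g' := fun (n : ℕ) (y : ℂ) => 2 * Real.pi * Complex.I *
      (coeff n (th ℂ f) * Complex.exp (2 * Real.pi * Complex.I * (n * y))))
    (((hf _ hz').mul_left (Real.pi * (z.im / 2))⁻¹).mul_left ‖(2 * Real.pi * Complex.I : ℂ)‖)
    (isOpen_lt continuous_const Complex.continuous_im : IsOpen {y : ℂ | z.im / 2 < y.im})
    (convex_halfSpace_im_gt (z.im / 2)).isPreconnected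
    (fun n y _ => by
      have h1 : HasDerivAt (fun y : ℂ => 2 * Real.pi * Complex.I * (n * y))
          (2 * Real.pi * Complex.I * (n * 1)) y :=
        ((hasDerivAt_id y).const_mul (n : ℂ)).const_mul _
      have h2 := (h1.cexp).const_mul (coeff n f)
      refine h2.congr_deriv ?_
      rw [coeff_th]
      ring)
    (fun n y hy => by
      rw [norm_mul]
      exact mul_le_mul_of_nonneg_left (A4_bound f hε (le_of_lt hy) rfl n) (norm_nonneg _))
    (show z ∈ {y : ℂ | z.im / 2 < y.im} from hzε)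
    (hf z hz).of_norm
    (show z ∈ {y : ℂ | z.im / 2 < y.im} from hzε)
  rw [tsum_mul_left] at hd
  exact hd

theorem Cv_C (c : ℂ) : Cv (C c) := by
  have h : (C c : PowerSeries ℂ) = c • (1 : PowerSeries ℂ) := by
    rw [smul_eq_C_mul, mul_one]
  rw [h]
  exact Cv_smul c Cv_one

theorem im_mob {A B C D : ℤ} (hdet : A * D - B * C = 1) {z : ℂ} (hz : 0 < z.im) :
    0 < (((A : ℂ) * z + B) / (C * z + D)).im :=
  H94M.mob_im_pos hdet hz

/-- The algebra of the quasimodular series. -/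
noncomputable def QQ (N : ℕ) : Subalgebra ℂ (PowerSeries ℂ) where
  carrier := {f | IsQ N f}
  mul_mem' := by
    rintro f g ⟨hf, Φ, hΦ, h1⟩ ⟨hg, Ψ, hΨ, h2⟩
    refine ⟨Cv_mul hf hg, Φ * Ψ, RR.mul_mem hΦ hΨ, fun A B C D hdet hC hD z hz => ?_⟩
    rw [ev_mul hf hg (im_mob hdet hz), h1 A B C D hdet hC hD z hz, h2 A B C D hdet hC hD z hz]
    rfl
  add_mem' := by
    rintro f g ⟨hf, Φ, hΦ, h1⟩ ⟨hg, Ψ, hΨ, h2⟩
    refine ⟨Cv_add hf hg, Φ + Ψ, RR.add_mem hΦ hΨ, fun A B C D hdet hC hD z hz => ?_⟩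
    rw [ev_add hf hg (im_mob hdet hz), h1 A B C D hdet hC hD z hz, h2 A B C D hdet hC hD z hz]
    rfl
  algebraMap_mem' := by
    intro c
    refine ⟨Cv_C c, algebraMap ℂ Fn c, RR.algebraMap_mem c, fun A B C D hdet hC hD z hz => ?_⟩
    have h : (algebraMap ℂ (PowerSeries ℂ) c : PowerSeries ℂ) = c • (1 : PowerSeries ℂ) := by
      rw [smul_eq_C_mul, mul_one]
      rfl
    rw [h]
    unfold ev
    rw [tsum_eq_single 0]
    · simp
    · intro n hn
      rw [coeff_smul, coeff_one, if_neg hn]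
      simp

theorem mem_QQ {N : ℕ} {f : PowerSeries ℂ} : f ∈ QQ N ↔ IsQ N f := Iff.rfl

private theorem A4_mob {A B C D : ℤ} (hdet : A * D - B * C = 1) {z : ℂ} (hz : 0 < z.im) :
    HasDerivAt (fun w : ℂ => ((A : ℂ) * w + B) / (C * w + D)) (((C : ℂ) * z + D) ^ 2)⁻¹ z := by
  have hd := H94M.den_ne hdet hz
  have h1 : HasDerivAt (fun w : ℂ => (A : ℂ) * w + B) A z := by
    have h := ((hasDerivAt_id z).const_mul (A : ℂ)).add_const (B : ℂ)
    rw [mul_one] at h
    exact h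
  have h2 : HasDerivAt (fun w : ℂ => (C : ℂ) * w + D) C z := by
    have h := ((hasDerivAt_id z).const_mul (C : ℂ)).add_const (D : ℂ)
    rw [mul_one] at h
    exact h
  refine (h1.div h2 hd).congr_deriv ?_
  have hdet' : (A : ℂ) * D - B * C = 1 := by exact_mod_cast hdet
  rw [div_eq_mul_inv]
  have h3 : (A : ℂ) * (C * z + D) - (A * z + B) * C = 1 := by linear_combination hdet'
  rw [h3, one_mul]

theorem th_mem {N : ℕ} {f : PowerSeries ℂ} (hf : f ∈ QQ N) : th ℂ f ∈ QQ N := by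
  obtain ⟨hc, Φ, hΦ, h1⟩ := hf
  obtain ⟨Ψ, hΨ, h2⟩ := RR_deriv hΦ
  have ht : (fun e z => (e.1 : ℂ) * z + e.2 : Fn) ∈ RR :=
    Algebra.subset_adjoin (Or.inr (Or.inr (Or.inl rfl)))
  have hpi : (2 * Real.pi * Complex.I : ℂ) ≠ 0 := Complex.two_pi_I_ne_zero
  refine ⟨Cv_th hc, (2 * Real.pi * Complex.I : ℂ)⁻¹ • ((fun e z => (e.1 : ℂ) * z + e.2 : Fn) ^ 2 * Ψ),
    RR.smul_mem (RR.mul_mem (RR.pow_mem ht 2) hΨ) _, fun A B C D hdet hC hD z hz => ?_⟩
  have hd := H94M.den_ne hdet hz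
  have he : ((C, D) : ℤ × ℤ) ≠ 0 := by
    intro h
    have hC0 : C = 0 := congrArg Prod.fst h
    have hD0 : D = 0 := congrArg Prod.snd h
    rw [hC0, hD0] at hdet
    norm_num at hdet
  have h3 := (ev_th hc (im_mob hdet hz)).comp z (A4_mob hdet hz)
  have h4 : (ev f ∘ fun w : ℂ => ((A : ℂ) * w + B) / (C * w + D)) =ᶠ[nhds z] Φ (C, D) := by
    filter_upwards [(isOpen_lt continuous_const Complex.continuous_im).mem_nhds hz] with w hw
    exact h1 A B C D hdet hC hD w hw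
  have h5 := (h3.congr_of_eventuallyEq h4.symm).unique (h2 (C, D) he z hz)
  show _ = (2 * Real.pi * Complex.I : ℂ)⁻¹ * (((C : ℂ) * z + D) ^ 2 * Ψ (C, D) z)
  have hd2 : ((C : ℂ) * z + D) ^ 2 ≠ 0 := pow_ne_zero 2 hd
  rw [← h5, mul_comm _ (((C : ℂ) * z + D) ^ 2)⁻¹, mul_inv_cancel_left₀ hd2, inv_mul_cancel_left₀ hpi]

end H41I
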