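import Pool.Agent.Lib.H41I.A4
import Pool.Agent.Lib.H6V.X4
import Pool.Agent.Lib.H6V.X1

/-!
# H41I, chunk A5 (M): members of `QQ N`; operations on `FC`

PROOF. `zC f = ktoC (toQ f)` (coefficientwise). `zC_e4_mem`: `Cv_e4` (Lib/H53M/X16.lean), `e4_mob` (Lib/H6V/X4.lean), `Φ = (fun e z => (C z + D)) ^ 4 * (fun _ z => ev (zC e4) z)`, the second factor is a generator by `KMF_diff`
(Lib/H53M/KMF.lean), the first by `Algebra.subset_adjoin`. `zC_dl_mem` the same with `12`. `fc_Cv`: from the growth (`H6V.EE_summable` with `j = 0`). `fc_mem`: `Φ = t^k * ev (mk a)`.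
`FC_mono`: divisibility is transitive. `FC_ad`: growth as `H6D.ad_growth`; `sum`: the terms with `d ∤ n` vanish, for `n = d m` the term is at most `‖a m‖ / m^(k-1)` (`d ≥ 1`): `Summable` through the injective map `m ↦ d m`
(`Function.Injective.summable_iff`, `Summable.of_norm_bounded`); modularity as in `H6D.ad_trans` (Lib/H6D/T1.lean): `ev (mk (adC a d)) z = ev (mk a) (d z)`, and for `N d ∣ C`, `C = d C'`: `d (A z + B)/(C z + D) = (A (d z) + d B)/(C' (d z) + D)`.
`FC_lin`: all the properties are linear (`Finset.induction_on` or directly; `Cv`, `ev_add`, `ev_smul`).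
-/

namespace H41I

open H53M H6V H65Z PowerSeries

theorem zC_eq (f : PowerSeries ℤ) : zC f = ktoC (toQ f) := by
  ext n
  simp

private theorem a5_mem {N : ℕ} {f : PowerSeries ℂ} (k : ℕ) (hf : Cv f)
    (h : ∀ A B C D : ℤ, A * D - B * C = 1 → (N : ℤ) ∣ C → (N : ℤ) ∣ D - 1 → ∀ z : ℂ, 0 < z.im →
      ev f ((A * z + B) / (C * z + D)) = (C * z + D) ^ k * ev f z) : f ∈ QQ N := by
  rw [mem_QQ]
  refine ⟨hf, (fun e z => (e.1 : ℂ) * z + e.2) ^ k * (fun _ z => ev f z), ?_, ?_⟩
  · refine RR.mul_mem (RR.pow_mem ?_ k) ?_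
    · exact Algebra.subset_adjoin (Or.inr (Or.inr (Or.inl rfl)))
    · exact Algebra.subset_adjoin (Or.inl ⟨ev f, KMF_diff f hf, rfl⟩)
  · intro A B C D hdet hC hD z hz
    rw [h A B C D hdet hC hD z hz]
    rfl

theorem zC_e4_mem (N : ℕ) : zC e4 ∈ QQ N := by
  rw [zC_eq]
  exact a5_mem 4 H53M.X.Cv_e4 fun A B C D hdet _ _ z hz => e4_mob hdet hz

theorem zC_dl_mem (N : ℕ) : zC dl ∈ QQ N := by
  rw [zC_eq]
  exact a5_mem 12 H53M.X.Cv_dl fun A B C D hdet _ _ z hz => dl_mob hdet hz

theorem fc_Cv {N k : ℕ} {a : ℕ → ℂ} (hF : FC N k a) : Cv (PowerSeries.mk a) := by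
  obtain ⟨C, K, hC⟩ := hF.growth
  intro z hz
  refine (EE_summable a C K hC 0 hz).congr fun n => ?_
  rw [coeff_mk, pow_zero, inv_one, mul_one]

theorem fc_mem {N k : ℕ} {a : ℕ → ℂ} (hF : FC N k a) : PowerSeries.mk a ∈ QQ N :=
  a5_mem k (fc_Cv hF) hF.trans

theorem FC_mono {N M k : ℕ} {a : ℕ → ℂ} (h : N ∣ M) (hF : FC N k a) : FC M k a where
  zero := hF.zero
  growth := hF.growth
  sum := hF.sum
  trans := fun A B C D hdet hC hD =>
    hF.trans A B C D hdet ((Int.natCast_dvd_natCast.2 h).trans hC) ((Int.natCast_dvd_natCast.2 h).trans hD)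

private theorem a5_ev {d : ℕ} (hd : 0 < d) (a : ℕ → ℂ) (z : ℂ) :
    ev (PowerSeries.mk (adC a d)) z = ev (PowerSeries.mk a) (d * z) := by
  unfold ev
  simp only [coeff_mk]
  have hinj : Function.Injective (fun n : ℕ => d * n) := fun x y h =>
    Nat.eq_of_mul_eq_mul_left hd h
  rw [← hinj.tsum_eq]
  · refine tsum_congr fun n => ?_
    unfold adC
    rw [if_pos (Dvd.intro n rfl), Nat.mul_div_cancel_left _ hd]
    congr 2
    push_cast
    ring
  · intro n hn
    by_contra hc
    apply hn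
    have hdn : ¬ d ∣ n := by
      rintro ⟨m, rfl⟩
      exact hc ⟨m, rfl⟩
    change adC a d n * _ = 0
    unfold adC
    rw [if_neg hdn, zero_mul]

theorem FC_ad {N k : ℕ} {a : ℕ → ℂ} (hF : FC N k a) {d M : ℕ} (hd : 1 ≤ d) (hM : N * d ∣ M) :
    FC M k (adC a d) where
  zero := by
    unfold adC
    rw [if_pos (dvd_zero d), Nat.zero_div, hF.zero]
  growth := by
    obtain ⟨C, K, hC⟩ := hF.growth
    have hC0 : 0 ≤ C := by
      have := (norm_nonneg _).trans (hC 0)
      simpa using this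
    refine ⟨C, K, fun n => ?_⟩
    unfold adC
    split_ifs with hd'
    · refine (hC (n / d)).trans (mul_le_mul_of_nonneg_left ?_ hC0)
      refine pow_le_pow_left₀ (by positivity) ?_ _
      have : ((n / d : ℕ) : ℝ) ≤ (n : ℝ) := by exact_mod_cast Nat.div_le_self n d
      linarith
    · rw [norm_zero]
      positivity
  sum := by
    have hd0 : 0 < d := hd
    have hinj : Function.Injective (fun n : ℕ => d * n) := fun x y h =>
      Nat.eq_of_mul_eq_mul_left hd0 h
    rw [← hinj.summable_iff]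
    · refine Summable.of_nonneg_of_le
        (fun n => div_nonneg (norm_nonneg _) (pow_nonneg (Nat.cast_nonneg _) _)) (fun n => ?_) hF.sum
      change ‖adC a d (d * n)‖ / ((d * n : ℕ) : ℝ) ^ (k - 1) ≤ ‖a n‖ / (n : ℝ) ^ (k - 1)
      unfold adC
      rw [if_pos (Dvd.intro n rfl), Nat.mul_div_cancel_left _ hd0]
      rcases Nat.eq_zero_or_pos n with rfl | hn
      · rw [Nat.mul_zero]
      · have hn' : (0 : ℝ) < n := by exact_mod_cast hn
        apply div_le_div_of_nonneg_left (norm_nonneg _) (pow_pos hn' _)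
        apply pow_le_pow_left₀ hn'.le
        push_cast
        have hd1 : (1 : ℝ) ≤ d := by exact_mod_cast hd
        nlinarith
    · intro n hn
      have hdn : ¬ d ∣ n := by
        rintro ⟨m, rfl⟩
        exact hn ⟨m, rfl⟩
      unfold adC
      rw [if_neg hdn, norm_zero, zero_div]
  trans := by
    intro A B C D hdet hC hD z hz
    have hd0 : 0 < d := hd
    rw [a5_ev hd0, a5_ev hd0]
    obtain ⟨t, rfl⟩ := hM
    obtain ⟨c, rfl⟩ := hC
    have h1 := hF.trans A (B * d) ((N * t : ℕ) * c) D (by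
      rw [← hdet]
      push_cast
      ring) (by
        push_cast
        exact ⟨t * c, by ring⟩) ((Int.natCast_dvd_natCast.2
          ((Nat.dvd_mul_right N d).trans (Nat.dvd_mul_right (N * d) t))).trans hD)
      ((d : ℂ) * z) (by
        have h3 : ((d : ℂ) * z).im = d * z.im := by
          rw [Complex.mul_im, Complex.natCast_re, Complex.natCast_im]
          ring
        rw [h3]
        have : (0 : ℝ) < d := by exact_mod_cast hd0
        positivity)
    have e1 : (d : ℂ) * (((A : ℂ) * z + B) / ((((N * d * t : ℕ) : ℤ) * c : ℤ) * z + D)) =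
        ((A : ℂ) * (d * z) + ((B * d : ℤ) : ℂ)) /
          (((((N * t : ℕ) : ℤ) * c : ℤ) : ℂ) * (d * z) + D) := by
      rw [← mul_div_assoc]
      congr 1
      · push_cast
        ring
      · push_cast
        ring
    have e2 : ((((N * d * t : ℕ) : ℤ) * c : ℤ) : ℂ) * z + D =
        (((((N * t : ℕ) : ℤ) * c : ℤ) : ℂ) * (d * z) + D) := by
      push_cast
      ring
    rw [e1, h1, e2]

private theorem FC_zero (N k : ℕ) : FC N k (fun _ => 0) where
  zero := rfl
  growth := ⟨0, 0, fun n => by rw [norm_zero, zero_mul]⟩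
  sum := by
    simp only [norm_zero, zero_div]
    exact summable_zero
  trans := by
    intro A B C D _ _ _ z _
    unfold ev
    simp

private theorem FC_add {N k : ℕ} {a b : ℕ → ℂ} (ha : FC N k a) (hb : FC N k b) :
    FC N k (fun n => a n + b n) where
  zero := by rw [ha.zero, hb.zero, add_zero]
  growth := by
    obtain ⟨C, K, hC⟩ := ha.growth
    obtain ⟨C', K', hC'⟩ := hb.growth
    refine ⟨|C| + |C'|, K + K', fun n => ?_⟩
    have h1 : (1 : ℝ) ≤ (n : ℝ) + 1 := by
      have : (0 : ℝ) ≤ n := Nat.cast_nonneg n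
      linarith
    have h2 : ((n : ℝ) + 1) ^ K ≤ ((n : ℝ) + 1) ^ (K + K') := pow_le_pow_right₀ h1 (Nat.le_add_right _ _)
    have h3 : ((n : ℝ) + 1) ^ K' ≤ ((n : ℝ) + 1) ^ (K + K') := pow_le_pow_right₀ h1 (Nat.le_add_left _ _)
    have h4 : ‖a n‖ ≤ |C| * ((n : ℝ) + 1) ^ (K + K') :=
      (hC n).trans (mul_le_mul (le_abs_self C) h2 (by positivity) (abs_nonneg C))
    have h5 : ‖b n‖ ≤ |C'| * ((n : ℝ) + 1) ^ (K + K') :=
      (hC' n).trans (mul_le_mul (le_abs_self C') h3 (by positivity) (abs_nonneg C'))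
    calc ‖a n + b n‖ ≤ ‖a n‖ + ‖b n‖ := norm_add_le _ _
      _ ≤ _ := by rw [add_mul]; exact add_le_add h4 h5
  sum := by
    refine Summable.of_nonneg_of_le (fun n => by positivity) (fun n => ?_) (ha.sum.add hb.sum)
    rw [← add_div]
    exact div_le_div_of_nonneg_right (norm_add_le _ _) (by positivity)
  trans := by
    intro A B C D hdet hC hD z hz
    have h1 : (PowerSeries.mk fun n => a n + b n) = PowerSeries.mk a + PowerSeries.mk b := by
      ext n
      rw [map_add, coeff_mk, coeff_mk, coeff_mk]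
    rw [h1, ev_add (fc_Cv ha) (fc_Cv hb) hz, ev_add (fc_Cv ha) (fc_Cv hb) (im_mob hdet hz),
      ha.trans A B C D hdet hC hD z hz, hb.trans A B C D hdet hC hD z hz]
    ring

private theorem FC_smul {N k : ℕ} {a : ℕ → ℂ} (c : ℂ) (ha : FC N k a) :
    FC N k (fun n => c * a n) where
  zero := by rw [ha.zero, mul_zero]
  growth := by
    obtain ⟨C, K, hC⟩ := ha.growth
    refine ⟨‖c‖ * C, K, fun n => ?_⟩
    rw [norm_mul, mul_assoc]
    exact mul_le_mul_of_nonneg_left (hC n) (norm_nonneg c)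
  sum := by
    refine (ha.sum.mul_left ‖c‖).congr fun n => ?_
    rw [norm_mul, mul_div_assoc]
  trans := by
    intro A B C D hdet hC hD z hz
    have h1 : (PowerSeries.mk fun n => c * a n) = c • PowerSeries.mk a := by
      ext n
      rw [coeff_smul, coeff_mk, coeff_mk, smul_eq_mul]
    rw [h1, ev_smul c (fc_Cv ha) hz, ev_smul c (fc_Cv ha) (im_mob hdet hz),
      ha.trans A B C D hdet hC hD z hz]
    ring

theorem FC_lin {N k : ℕ} {ι : Type*} (s : Finset ι) (a : ι → ℕ → ℂ)
    (h : ∀ i ∈ s, FC N k (a i)) (c : ι → ℂ) : FC N k (fun n => ∑ i ∈ s, c i * a i n) := by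
  classical
  induction s using Finset.induction_on with
  | empty =>
    simp only [Finset.sum_empty]
    exact FC_zero N k
  | insert i s hi ih =>
    simp only [Finset.sum_insert hi]
    exact FC_add (FC_smul (c i) (h i (Finset.mem_insert_self i s)))
      (ih fun j hj => h j (Finset.mem_insert_of_mem hj))

end H41I
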