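import Pool.Agent.Lib.H41I.A4
import Pool.Agent.Lib.H53M.X17

/-!
# H41I, chunk A6 (S/M): the series `h_s`

PROOF. `th_hs`: coefficients, `coeff_th`; for `n = d m`, `m ≥ 1`: `n a(m)/m = d a(m)`; for `n = 0` both sides vanish (`a 0 = 0`). `ev_hs`: coefficientwise, for `n = d_s m` (`m ≥ 1`) `b`-part `d_s a(m) / n = a(m)/m`; `n = 0`: both `0`.
`bb_ne`: `n₁` minimal with `a n₁ ≠ 0` (`n₁ ≥ 1`), `s₀` with `c s₀ ≠ 0` and `d s₀` minimal, `n₀ = d s₀ n₁`: for `s ≠ s₀` with `c s ≠ 0` and `d s ∣ n₀` we have `d s > d s₀`, so `n₀ / d s < n₁` and `a (n₀ / d s) = 0`.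
`ev_inj`: the constant coefficient of `f` is the limit of `ev f (i y)`, `y → ∞` (`H53M.ev_tendsto`, Lib/H53M/X17.lean), so it is `0`, `f = X u`, `Cv u` (`X17_Cv`), `ev f z = e(z) ev u z` (`X17_evX`, `ev_mul`), so `ev u = 0` as well: by
induction on `n` the coefficient `n` of every such series is `0`.
-/

namespace H41I

open H53M H6V H65Z PowerSeries

theorem th_hs {a : ℕ → ℂ} (h0 : a 0 = 0) {d : ℕ} (hd : 1 ≤ d) :
    th ℂ (hs a d) = (d : ℂ) • PowerSeries.mk (adC a d) := by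
  ext n
  rw [coeff_th]
  unfold hs adC
  rw [coeff_mk, coeff_smul, coeff_mk, smul_eq_mul]
  by_cases hdn : d ∣ n
  · rw [if_pos hdn, if_pos hdn]
    obtain ⟨m, rfl⟩ := hdn
    rw [Nat.mul_div_cancel_left m hd]
    rcases Nat.eq_zero_or_pos m with hm | hm
    · subst hm
      rw [h0]
      simp
    · have hm' : (m : ℂ) ≠ 0 := Nat.cast_ne_zero.2 hm.ne'
      push_cast
      field_simp
  · rw [if_neg hdn, if_neg hdn, mul_zero, mul_zero]

/-- The coefficients of `Σ c_s f_s`, `f_s = θ h_s`. -/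
noncomputable def bb {r : ℕ} (a : ℕ → ℂ) (d : Fin r → ℕ) (c : Fin r → ℂ) (n : ℕ) : ℂ :=
  ∑ s, (c s * d s) * adC a (d s) n

theorem ev_hs {a : ℕ → ℂ} (h0 : a 0 = 0) {r : ℕ} (d : Fin r → ℕ) (hd : ∀ s, 1 ≤ d s)
    (c : Fin r → ℂ) (z : ℂ) : ev (∑ s, C (c s) * hs a (d s)) z = EE (bb a d c) 1 z := by
  unfold ev EE
  refine tsum_congr fun n => ?_
  congr 1
  rw [map_sum, pow_one]
  unfold bb
  rw [Finset.sum_mul]
  refine Finset.sum_congr rfl fun s _ => ?_
  unfold hs adC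
  rw [coeff_C_mul, coeff_mk]
  by_cases hdn : d s ∣ n
  · rw [if_pos hdn, if_pos hdn]
    obtain ⟨m, hm⟩ := hdn
    rw [hm, Nat.mul_div_cancel_left m (hd s)]
    rcases Nat.eq_zero_or_pos m with h1 | h1
    · rw [h1, h0]
      simp
    · have hm' : (m : ℂ) ≠ 0 := Nat.cast_ne_zero.2 h1.ne'
      have hd' : ((d s : ℕ) : ℂ) ≠ 0 := Nat.cast_ne_zero.2 (by have := hd s; omega)
      push_cast
      field_simp
  · rw [if_neg hdn, if_neg hdn]
    simp

theorem bb_ne {a : ℕ → ℂ} (h0 : a 0 = 0) (ha : ∃ n, a n ≠ 0) {r : ℕ} (d : Fin r → ℕ)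
    (hd : Function.Injective d) (hd1 : ∀ s, 1 ≤ d s) (c : Fin r → ℂ) (hc : c ≠ 0) :
    ∃ n₀, 1 ≤ n₀ ∧ bb a d c n₀ ≠ 0 := by
  classical
  have hn1 := Nat.find_spec ha
  have hmin : ∀ m, m < Nat.find ha → a m = 0 := fun m hm => by
    have := Nat.find_min ha hm
    push Not at this
    exact this
  obtain ⟨n₁, hn₁⟩ : ∃ n₁, n₁ = Nat.find ha := ⟨_, rfl⟩
  rw [← hn₁] at hn1 hmin
  have hpos : 1 ≤ n₁ := by
    rcases Nat.eq_zero_or_pos n₁ with h | h
    · rw [h] at hn1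
      exact absurd h0 hn1
    · exact h
  have hne : (Finset.univ.filter fun s : Fin r => c s ≠ 0).Nonempty := by
    obtain ⟨s, hs⟩ := Function.ne_iff.1 hc
    exact ⟨s, Finset.mem_filter.2 ⟨Finset.mem_univ _, hs⟩⟩
  obtain ⟨s₀, hs₀, hs₀min⟩ := Finset.exists_min_image _ d hne
  have hcs : c s₀ ≠ 0 := (Finset.mem_filter.1 hs₀).2
  refine ⟨d s₀ * n₁, Nat.mul_pos (hd1 s₀) hpos, ?_⟩
  unfold bb
  rw [Finset.sum_eq_single s₀]
  · unfold adC
    rw [if_pos (dvd_mul_right _ _), Nat.mul_div_cancel_left n₁ (hd1 s₀)]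
    have hd' : ((d s₀ : ℕ) : ℂ) ≠ 0 := Nat.cast_ne_zero.2 (by have := hd1 s₀; omega)
    exact mul_ne_zero (mul_ne_zero hcs hd') hn1
  · intro s _ hs
    by_cases hcs' : c s = 0
    · rw [hcs', zero_mul, zero_mul]
    · have h1 : d s₀ ≤ d s := hs₀min s (Finset.mem_filter.2 ⟨Finset.mem_univ _, hcs'⟩)
      have h2 : d s₀ < d s := lt_of_le_of_ne h1 fun h => hs (hd h).symm
      unfold adC
      by_cases hdv : d s ∣ d s₀ * n₁
      · rw [if_pos hdv]
        obtain ⟨m, hm⟩ := hdv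
        rw [hm, Nat.mul_div_cancel_left m (hd1 s)]
        have h3 : m < n₁ := by
          by_contra h4
          push Not at h4
          have h5 : d s₀ * n₁ < d s * m := by
            calc d s₀ * n₁ < d s * n₁ := Nat.mul_lt_mul_of_pos_right h2 hpos
              _ ≤ d s * m := Nat.mul_le_mul_left _ h4
          omega
        rw [hmin m h3, mul_zero]
      · rw [if_neg hdv, mul_zero]
  · intro h
    exact absurd (Finset.mem_univ _) h

private theorem a6_zero {f : PowerSeries ℂ} (hf : Cv f) (h : ∀ z : ℂ, 0 < z.im → ev f z = 0) : coeff 0 f = 0 := by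
  have h1 := X.ev_tendsto hf
  have h2 : Filter.Tendsto (fun y : ℝ => ev f (Complex.I * (y : ℂ))) Filter.atTop (nhds 0) := by
    refine Filter.Tendsto.congr' ?_ tendsto_const_nhds
    filter_upwards [Filter.eventually_gt_atTop (0 : ℝ)] with y hy
    exact (h _ (by simpa using hy)).symm
  exact tendsto_nhds_unique h1 h2

theorem ev_inj {f : PowerSeries ℂ} (hf : Cv f) (h : ∀ z : ℂ, 0 < z.im → ev f z = 0) : f = 0 := by
  ext n
  rw [map_zero]
  induction n generalizing f with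
  | zero => exact a6_zero hf h
  | succ n ih =>
    have h1 : constantCoeff f = 0 := by
      rw [← coeff_zero_eq_constantCoeff_apply]
      exact a6_zero hf h
    obtain ⟨u, rfl⟩ := X_dvd_iff.2 h1
    have hu : Cv u := X.X17_Cv hf
    rw [coeff_succ_X_mul]
    refine ih hu fun z hz => ?_
    have h2 := h z hz
    rw [ev_mul X.X17_CvX hu hz, X.X17_evX] at h2
    rcases mul_eq_zero.1 h2 with h3 | h3
    · exact absurd h3 (Complex.exp_ne_zero _)
    · exact h3

end H41I
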