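import Pool.Agent.Lib.H41I.A2
import Pool.Agent.Lib.H41I.A5
import Pool.Agent.Lib.H41I.A6

/-!
# H41I, chunk A7 (M/L): the Laurent step

PROOF. Choose `z` with `ev v z ≠ 0`, `0 < im z` (`ev_inj`). `Φv, Φu ∈ RR` from `hv, hu`. `Ψ = Σ_{j < k-1} al k j • C^j t^(k-2-j) g_j`, `g_j = EE b (j+1)` (holomorphic by `H6V.EE_deriv`), is in `RR`. For `γ ∈ Γ₁(N)`, `0 < C`, `h` at `γ z`
(`im_mob`) and `EE_trans'` give `Φv (C,D) z * (Ψ (C,D) z - κ C^(k-2) y) = Φu (C,D) z`, `κ = al k (k-2) ≠ 0`, `y = EE b (k-1) (-D/C)`, so `Φv κ C^(k-2) y = Θ` with `Θ = Φv Ψ - Φu ∈ RR`. `RR_poly` for `Φv` (`M₁, p₁`) and for `Θ` (`M₂, p₂`) at this `z`: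
`p₁(C,t) t^M₂ κ C^(k-2) y = p₂(C,t) t^M₁`, `t = C z + D`. Fix `(A,B,C,D)`; for all natural `n` the matrix `(A, B + n A; C, D + n C)` is in `Γ₁(N)`, `y` does not change (`H6V.EE_period`: `-(D + nC)/C = -D/C - n`), and `t_n = t + n C` are distinct: so the
polynomials `p₁(C,T) T^M₂ κ C^(k-2) y` and `p₂(C,T) T^M₁` in `ℂ[T]` are equal (`Polynomial.eq_of_infinite_eval_eq`). `p₁ ≠ 0` because at `(A,B,C,D) = (1,0,0,1)` `Φv (0,1) z = ev v z ≠ 0`. Let `q = p₁.coeff m ≠ 0`. Compare the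
coefficients of `T^(m+M₂)`: `q(C) κ C^(k-2) y = R(C)`, `R = (p₂ * X^M₁).coeff (m+M₂)`, `Q = q * C κ * X^(k-2)` (`Polynomial.coeff_map`, `coeff_mul_X_pow`).
-/

namespace H41I

open H53M H6V Polynomial

private theorem a7_al_ne (k : ℕ) : al k (k - 2) ≠ 0 := by
  unfold al
  have h1 : (2 * (Real.pi : ℂ) * Complex.I) ≠ 0 := by
    refine mul_ne_zero (mul_ne_zero two_ne_zero ?_) Complex.I_ne_zero
    exact_mod_cast Real.pi_ne_zero
  refine mul_ne_zero (mul_ne_zero (pow_ne_zero _ (by norm_num)) ?_) (inv_ne_zero (pow_ne_zero _ h1))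
  rw [Nat.descFactorial_self]
  exact_mod_cast (Nat.factorial_pos _).ne'

private theorem a7_gen {Φ : Fn} (h : IsGen Φ) : Φ ∈ RR := Algebra.subset_adjoin h

private theorem a7_Psi {N k : ℕ} {b : ℕ → ℂ} (hF : FC N k b) :
    ∃ Ψ ∈ RR, ∀ (e : ℤ × ℤ) (z : ℂ), Ψ e z = ∑ j ∈ Finset.range (k - 1), al k j * (e.1 : ℂ) ^ j *
      ((e.1 : ℂ) * z + e.2) ^ (k - 2 - j) * EE b (j + 1) z := by
  obtain ⟨C₀, K, hgr⟩ := hF.growth
  have hopen : IsOpen {z : ℂ | 0 < z.im} := isOpen_lt continuous_const Complex.continuous_im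
  have hg : ∀ j : ℕ, (fun _ z => EE b (j + 1) z : Fn) ∈ RR := by
    intro j
    refine a7_gen (Or.inl ⟨EE b (j + 1), fun z hz => ?_, rfl⟩)
    exact (EE_deriv b C₀ K hgr hF.zero j hz).differentiableAt.differentiableWithinAt
  have hC : (fun e _ => (e.1 : ℂ) : Fn) ∈ RR := a7_gen (Or.inr (Or.inl rfl))
  have ht : (fun e z => (e.1 : ℂ) * z + e.2 : Fn) ∈ RR := a7_gen (Or.inr (Or.inr (Or.inl rfl)))
  refine ⟨∑ j ∈ Finset.range (k - 1), algebraMap ℂ Fn (al k j) * (fun e _ => (e.1 : ℂ) : Fn) ^ j *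
    (fun e z => (e.1 : ℂ) * z + e.2 : Fn) ^ (k - 2 - j) * (fun _ z => EE b (j + 1) z : Fn), ?_, ?_⟩
  · refine RR.sum_mem fun j _ => ?_
    exact RR.mul_mem (RR.mul_mem (RR.mul_mem (RR.algebraMap_mem _) (RR.pow_mem hC _))
      (RR.pow_mem ht _)) (hg j)
  · intro e z
    rw [Finset.sum_apply, Finset.sum_apply]
    rfl

theorem laurent {N k : ℕ} (hk : 4 ≤ k) {b : ℕ → ℂ} (hF : FC N k b) {v u : PowerSeries ℂ}
    (hv : v ∈ QQ N) (hu : u ∈ QQ N) (hv0 : v ≠ 0)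
    (h : ∀ z : ℂ, 0 < z.im → ev v z * EE b 1 z = ev u z) :
    ∃ Q R : ℂ[X], Q ≠ 0 ∧ ∀ A B C D : ℤ, A * D - B * C = 1 → (N : ℤ) ∣ C → (N : ℤ) ∣ D - 1 →
      0 < C → Q.eval (C : ℂ) * EE b (k - 1) ((-(D : ℝ) / (C : ℝ) : ℝ) : ℂ) = R.eval (C : ℂ) := by
  obtain ⟨hvC, Φv, hΦv, h1⟩ := mem_QQ.1 hv
  obtain ⟨huC, Φu, hΦu, h2⟩ := mem_QQ.1 hu
  obtain ⟨z, hz, hvz⟩ : ∃ z : ℂ, 0 < z.im ∧ ev v z ≠ 0 := by
    by_contra hcon
    push Not at hcon
    exact hv0 (ev_inj hvC hcon)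
  obtain ⟨Ψ, hΨ, hΨe⟩ := a7_Psi hF
  obtain ⟨κ, hκ⟩ : ∃ κ, κ = al k (k - 2) := ⟨_, rfl⟩
  have hκ0 : κ ≠ 0 := hκ ▸ a7_al_ne k
  obtain ⟨M₁, p₁, hp1⟩ := RR_poly hΦv hz
  obtain ⟨M₂, p₂, hp2⟩ := RR_poly (RR.sub_mem (RR.mul_mem hΦv hΨ) hΦu) hz
  -- the identity for the group elements
  have key : ∀ A B C D : ℤ, A * D - B * C = 1 → (N : ℤ) ∣ C → (N : ℤ) ∣ D - 1 → 0 < C →
      Φv (C, D) z * (κ * (C : ℂ) ^ (k - 2) *
        EE b (k - 1) ((-(D : ℝ) / (C : ℝ) : ℝ) : ℂ)) = (Φv * Ψ - Φu) (C, D) z := by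
    intro A B C D hdet hC hD hpos
    have a1 := h _ (im_mob hdet hz)
    rw [h1 A B C D hdet hC hD z hz, h2 A B C D hdet hC hD z hz,
      EE_trans' (by omega) hF hdet hC hD hpos hz] at a1
    have a2 := hΨe (C, D) z
    simp only at a2
    rw [← a2, ← hκ] at a1
    have a3 : (Φv * Ψ - Φu) (C, D) z = Φv (C, D) z * Ψ (C, D) z - Φu (C, D) z := rfl
    rw [a3, ← a1]
    ring
  have hp1ne : p₁ ≠ 0 := by
    rintro rfl
    have a1 := hp1 (0, 1) (by simp)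
    have a2 := h1 1 0 0 1 (by norm_num) (dvd_zero _) (by simp) z hz
    simp only [Int.cast_zero, Int.cast_one, zero_mul, zero_add, one_pow, mul_one,
      Polynomial.map_zero, eval_zero] at a1
    simp only [Int.cast_zero, Int.cast_one, zero_mul, zero_add, one_mul, add_zero, div_one] at a2
    exact hvz (by rw [a2, a1])
  obtain ⟨m, hm⟩ : ∃ m, p₁.coeff m ≠ 0 := by
    by_contra hcon
    push Not at hcon
    exact hp1ne (Polynomial.ext fun n => by rw [hcon n, coeff_zero])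
  refine ⟨p₁.coeff m * Polynomial.C κ * X ^ (k - 2), (p₂ * X ^ M₁).coeff (m + M₂),
    mul_ne_zero (mul_ne_zero hm (by simpa using hκ0)) (pow_ne_zero _ X_ne_zero), ?_⟩
  intro A B C D hdet hC hD hpos
  obtain ⟨y, hy⟩ : ∃ y, y = EE b (k - 1) ((-(D : ℝ) / (C : ℝ) : ℝ) : ℂ) := ⟨_, rfl⟩
  rw [← hy]
  have hC0 : (C : ℂ) ≠ 0 := by exact_mod_cast hpos.ne'
  have hCr : (C : ℝ) ≠ 0 := by exact_mod_cast hpos.ne'
  have hpol : p₁.map (evalRingHom (C : ℂ)) * X ^ M₂ * Polynomial.C (κ * (C : ℂ) ^ (k - 2) * y) =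
      (p₂ * X ^ M₁).map (evalRingHom (C : ℂ)) := by
    apply Polynomial.eq_of_infinite_eval_eq
    refine Set.infinite_of_injective_forall_mem
      (f := fun n : ℕ => (C : ℂ) * z + ((D + n * C : ℤ) : ℂ)) ?_ ?_
    · intro n n' hnn
      simp only at hnn
      push_cast at hnn
      have a1 : ((n : ℂ) - n') * C = 0 := by linear_combination hnn
      rcases mul_eq_zero.1 a1 with a2 | a2
      · exact_mod_cast sub_eq_zero.1 a2
      · exact absurd a2 hC0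
    · intro n
      have hdet' : A * (D + n * C) - (B + n * A) * C = 1 := by linear_combination hdet
      have hD' : (N : ℤ) ∣ (D + n * C) - 1 := by
        have a1 : (D + n * C) - 1 = (D - 1) + n * C := by ring
        rw [a1]
        exact dvd_add hD (Dvd.dvd.mul_left hC _)
      have hyn : EE b (k - 1) ((-((D + n * C : ℤ) : ℝ) / (C : ℝ) : ℝ) : ℂ) = y := by
        rw [hy, ← EE_period b (k - 1) ((-(D : ℝ) / (C : ℝ) : ℝ) : ℂ) (-(n : ℤ))]
        congr 1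
        push_cast
        field_simp
        ring
      have a1 := key A (B + n * A) C (D + n * C) hdet' hC hD' hpos
      rw [hyn] at a1
      have he : ((C, D + n * C) : ℤ × ℤ) ≠ 0 := by
        intro h0
        exact hpos.ne' (congrArg Prod.fst h0)
      have a2 := hp1 (C, D + n * C) he
      have a3 := hp2 (C, D + n * C) he
      simp only at a2 a3
      obtain ⟨t, ht⟩ : ∃ t, t = (C : ℂ) * z + ((D + n * C : ℤ) : ℂ) := ⟨_, rfl⟩
      rw [← ht] at a2 a3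
      rw [← a1] at a3
      show eval _ _ = eval _ _
      rw [← ht, eval_mul, eval_mul, eval_C, eval_pow, eval_X, Polynomial.map_mul, eval_mul,
        Polynomial.map_pow, Polynomial.map_X, eval_pow, eval_X, ← a2, ← a3]
      ring
  have hco := congrArg (fun F : ℂ[X] => F.coeff (m + M₂)) hpol
  rw [coeff_mul_C, coeff_mul_X_pow, coeff_map, coeff_map, coe_evalRingHom] at hco
  rw [eval_mul, eval_mul, eval_C, eval_pow, eval_X, ← hco]
  ring

end H41I
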