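import Mathlib

/-!
# H41I, chunk A8 (M), PURE MATHLIB: the limit step

PROOF. `approx`: for `x : ℝ` and every `m` put `C = (2N)^(m+1)`, `D = 1 + 2N t`, `t = ⌊-(x C + 1)/(2N)⌋`: `|-D/C - x| ≤ 2N/C`, `D` is coprime to `C`, so `A D - B C = 1` is solvable (see the proof of `H6V.dense_fr`, Lib/H6V/X6.lean).
`const_of_rat`: take `D_m, D'_m` for `x, x'` with the same `C_m = (2N)^(m+1)`, distinct, so `Q(C_m) ≠ 0` for all large `m` (finitely many roots), `Y(-D_m/C_m) = R(C_m)/Q(C_m) = Y(-D'_m/C_m)`, and the two sides tend to `Y x`, `Y x'`.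
-/

namespace H41I

open Polynomial Filter Topology

theorem approx (N : ℕ) (hN : N ≠ 0) (x : ℝ) : ∃ D : ℕ → ℤ,
    (∀ m, ∃ A B : ℤ, A * D m - B * (2 * (N : ℤ)) ^ (m + 1) = 1) ∧ (∀ m, (N : ℤ) ∣ D m - 1) ∧
      Tendsto (fun m : ℕ => -(D m : ℝ) / (((2 * (N : ℤ)) ^ (m + 1) : ℤ) : ℝ)) atTop (𝓝 x) := by
  have hN1 : (1 : ℝ) ≤ (N : ℝ) := by exact_mod_cast Nat.one_le_iff_ne_zero.mpr hN
  have h2N : (0 : ℝ) < 2 * (N : ℝ) := by linarith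
  let t : ℕ → ℤ := fun m => ⌊-(x * (2 * (N : ℝ)) ^ (m + 1) + 1) / (2 * (N : ℝ))⌋
  refine ⟨fun m => 1 + 2 * (N : ℤ) * t m, fun m => ?_, fun m => ?_, ?_⟩
  · have hc : IsCoprime (1 + 2 * (N : ℤ) * t m) (2 * (N : ℤ)) := ⟨1, -t m, by ring⟩
    obtain ⟨u, v, huv⟩ := hc.pow_right (n := m + 1)
    exact ⟨u, -v, by linarith⟩
  · exact ⟨2 * t m, by ring⟩
  · have hb : ∀ m : ℕ, |(-(((1 + 2 * (N : ℤ) * t m : ℤ)) : ℝ) /
        (((2 * (N : ℤ)) ^ (m + 1) : ℤ) : ℝ)) - x| ≤ (1 / 2 : ℝ) ^ m := by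
      intro m
      have hC : (0 : ℝ) < (2 * (N : ℝ)) ^ (m + 1) := pow_pos h2N _
      have h1 : (t m : ℝ) ≤ -(x * (2 * (N : ℝ)) ^ (m + 1) + 1) / (2 * (N : ℝ)) :=
        Int.floor_le _
      have h2 : -(x * (2 * (N : ℝ)) ^ (m + 1) + 1) / (2 * (N : ℝ)) < (t m : ℝ) + 1 :=
        Int.lt_floor_add_one _
      rw [le_div_iff₀ h2N] at h1
      rw [div_lt_iff₀ h2N] at h2
      push_cast
      have e1 : -(1 + 2 * (N : ℝ) * (t m : ℝ)) / (2 * (N : ℝ)) ^ (m + 1) - x =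
          (-1 - x * (2 * (N : ℝ)) ^ (m + 1) - 2 * (N : ℝ) * (t m : ℝ)) /
            (2 * (N : ℝ)) ^ (m + 1) := by
        field_simp
        ring
      rw [e1]
      have h3 : 0 ≤ -1 - x * (2 * (N : ℝ)) ^ (m + 1) - 2 * (N : ℝ) * (t m : ℝ) := by
        nlinarith
      have h4 : -1 - x * (2 * (N : ℝ)) ^ (m + 1) - 2 * (N : ℝ) * (t m : ℝ) ≤ 2 * (N : ℝ) := by
        nlinarith
      rw [abs_of_nonneg (div_nonneg h3 hC.le), div_le_iff₀ hC]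
      refine h4.trans ?_
      have h5 : (1 : ℝ) ≤ (1 / 2 : ℝ) ^ m * (2 * (N : ℝ)) ^ m := by
        rw [← mul_pow]
        refine one_le_pow₀ ?_
        linarith
      calc 2 * (N : ℝ) = 1 * (2 * (N : ℝ)) := (one_mul _).symm
        _ ≤ ((1 / 2 : ℝ) ^ m * (2 * (N : ℝ)) ^ m) * (2 * (N : ℝ)) :=
          mul_le_mul_of_nonneg_right h5 h2N.le
        _ = (1 / 2 : ℝ) ^ m * (2 * (N : ℝ)) ^ (m + 1) := by ring
    rw [tendsto_iff_norm_sub_tendsto_zero]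
    refine squeeze_zero (fun m => norm_nonneg _) (fun m => ?_)
      (tendsto_pow_atTop_nhds_zero_of_lt_one (by norm_num : (0 : ℝ) ≤ 1 / 2) (by norm_num))
    rw [Real.norm_eq_abs]
    exact hb m

theorem const_of_rat (N : ℕ) (hN : N ≠ 0) (Y : ℝ → ℂ) (hY : Continuous Y) (Q R : ℂ[X])
    (hQ : Q ≠ 0) (h : ∀ A B C D : ℤ, A * D - B * C = 1 → (N : ℤ) ∣ C → (N : ℤ) ∣ D - 1 →
      0 < C → Q.eval (C : ℂ) * Y (-(D : ℝ) / (C : ℝ)) = R.eval (C : ℂ)) (x x' : ℝ) :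
    Y x = Y x' := by
  obtain ⟨D, hD1, hD2, hD3⟩ := approx N hN x
  obtain ⟨D', hD1', hD2', hD3'⟩ := approx N hN x'
  have hNz : (0 : ℤ) < 2 * (N : ℤ) := by
    have : (0 : ℤ) < (N : ℤ) := by exact_mod_cast Nat.pos_of_ne_zero hN
    linarith
  have hN2 : (1 : ℤ) < 2 * (N : ℤ) := by
    have : (1 : ℤ) ≤ (N : ℤ) := by exact_mod_cast Nat.one_le_iff_ne_zero.mpr hN
    linarith
  have hCpos : ∀ m : ℕ, (0 : ℤ) < (2 * (N : ℤ)) ^ (m + 1) := fun m => pow_pos hNz _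
  have hdvd : ∀ m : ℕ, (N : ℤ) ∣ (2 * (N : ℤ)) ^ (m + 1) := fun m =>
    dvd_pow (dvd_mul_left _ _) (Nat.succ_ne_zero m)
  have hinj : Function.Injective (fun m : ℕ => (((2 * (N : ℤ)) ^ (m + 1) : ℤ) : ℂ)) := by
    intro m m' hmm
    have h1 : (2 * (N : ℤ)) ^ (m + 1) = (2 * (N : ℤ)) ^ (m' + 1) := Int.cast_injective hmm
    have h2 := pow_right_injective₀ hNz (ne_of_gt hN2) h1
    omega
  have hfin : {c : ℂ | Q.IsRoot c}.Finite := Polynomial.finite_setOfPred_isRoot hQ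
  have hev : ∀ᶠ m : ℕ in atTop, Q.eval ((((2 * (N : ℤ)) ^ (m + 1) : ℤ)) : ℂ) ≠ 0 := by
    have h1 : ∀ᶠ c : ℂ in cofinite, c ∉ {c : ℂ | Q.IsRoot c} := hfin.compl_mem_cofinite
    have h2 := hinj.tendsto_cofinite.eventually h1
    rw [Nat.cofinite_eq_atTop] at h2
    filter_upwards [h2] with m hm
    exact hm
  have hT : Tendsto (fun m : ℕ => Y (-(D m : ℝ) / (((2 * (N : ℤ)) ^ (m + 1) : ℤ) : ℝ))) atTop
      (𝓝 (Y x)) := (hY.tendsto x).comp hD3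
  have hT' : Tendsto (fun m : ℕ => Y (-(D' m : ℝ) / (((2 * (N : ℤ)) ^ (m + 1) : ℤ) : ℝ))) atTop
      (𝓝 (Y x')) := (hY.tendsto x').comp hD3'
  refine tendsto_nhds_unique (hT.congr' ?_) hT'
  filter_upwards [hev] with m hm
  obtain ⟨A, B, hAB⟩ := hD1 m
  obtain ⟨A', B', hAB'⟩ := hD1' m
  have e1 := h A B _ (D m) hAB (hdvd m) (hD2 m) (hCpos m)
  have e2 := h A' B' _ (D' m) hAB' (hdvd m) (hD2' m) (hCpos m)
  exact mul_left_cancel₀ hm (e1.trans e2.symm)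

end H41I
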