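import Pool.Agent.Lib.H41I.A7
import Pool.Agent.Lib.H41I.A8
import Pool.Agent.Lib.H18G.KO2
import Pool.Agent.Lib.H65Z.B3

/-!
# H41I, chunk A9 (M): analytic independence

PROOF. `Lv_indep`: if not all `c i` vanish let `i₀` be minimal with `c i₀ ≠ 0`; `Lv W i = dl^i * e4^(3(W-i))`, `dl = q + ..`, `e4 = 1 + ..` (constant coefficients; the coefficient `i₀` of `zC (Lv W i)` is `0` for `i > i₀`, since `X^i ∣ dl^i`, and
`1` for `i = i₀`), so the coefficient `i₀` of the sum is `c i₀`.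
`AI`: `N' = N * ∏ s, d s`. Suppose `AA = 0`. `S = piAntidiag univ J`, `P α = Σ_{i ≤ W} c (α, i) • zC (Lv W i)`, `Σ_{α ∈ S} P α * Hm h α = 0` (`Finset.sum_product`), `P α ≠ 0` for some `α ∈ S` (`Lv_indep`). `kolchin_ostrowski (th ℂ) th_const'` with
`A = QQ N'` (`th_mem`; `th_hs`, `fc_mem`, `FC_ad`: `θ h_s ∈ QQ N'`; `zC_e4_mem`, `zC_dl_mem`), `Q = H18G.polyOf S P` (`coeff_polyOf`, `eval_polyOf`). It gives `c', v, u`; `b = bb a d c'`, `FC N' k b` (`FC_lin`, `FC_ad`), `ev v z * EE b 1 z = ev u z`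
(`ev_mul`, `ev_hs`; `Cv` of `Σ C (c s) * hs`: `H6V.EE_summable` with `j = 1`), `laurent`, `const_of_rat` with `Y x = EE b (k-1) x` (`H6V.EE_cont`, `hF.sum`), `EE_noconst'` with `bb_ne`.
-/

namespace H41I

open H53M H6V H65Z H36D PowerSeries

private theorem A9_dl : ∃ u : PowerSeries ℂ, zC dl = X * u ∧ constantCoeff u = 1 := by
  have h0 : constantCoeff (zC dl) = 0 := by
    rw [← coeff_zero_eq_constantCoeff_apply, coeff_map, coeff_zero_dl, map_zero]
  obtain ⟨u, hu⟩ := X_dvd_iff.2 h0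
  refine ⟨u, hu, ?_⟩
  have h1 : coeff 1 (zC dl) = 1 := by
    rw [coeff_map, coeff_one_dl, map_one]
  rw [hu, show (1 : ℕ) = 0 + 1 from rfl, coeff_succ_X_mul] at h1
  rw [← coeff_zero_eq_constantCoeff_apply]
  exact h1

private theorem A9_Lv (W i : ℕ) : zC (Lv W i) = zC dl ^ i * zC e4 ^ (3 * (W - i)) := by
  unfold Lv
  rw [map_mul, map_pow, map_pow]

private theorem A9_coeff (W i j : ℕ) (hij : i ≤ j) :
    coeff i (zC (Lv W j)) = if i = j then 1 else 0 := by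
  obtain ⟨u, hu, hu1⟩ := A9_dl
  rw [A9_Lv, hu, mul_pow, mul_assoc, coeff_X_pow_mul']
  by_cases h : i = j
  · subst h
    rw [if_pos le_rfl, if_pos rfl, Nat.sub_self, coeff_zero_eq_constantCoeff_apply, map_mul,
      map_pow, map_pow, hu1, one_pow, one_mul]
    have h1 : constantCoeff (zC e4) = 1 := by
      rw [← coeff_zero_eq_constantCoeff_apply, coeff_map, coeff_zero_e4, map_one]
    rw [h1, one_pow]
  · rw [if_neg h, if_neg (by omega)]

theorem Lv_indep (W : ℕ) (c : ℕ → ℂ)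
    (h : ∑ i ∈ Finset.range (W + 1), c i • zC (Lv W i) = 0) : ∀ i, i ≤ W → c i = 0 := by
  intro i
  induction i using Nat.strong_induction_on with
  | _ i ih =>
    intro hi
    have h1 := congrArg (coeff i) h
    rw [map_sum, map_zero, Finset.sum_eq_single i] at h1
    · rw [coeff_smul, A9_coeff W i i le_rfl, if_pos rfl, smul_eq_mul, mul_one] at h1
      exact h1
    · intro j hj hji
      rw [Finset.mem_range] at hj
      rcases lt_or_gt_of_ne hji with h2 | h2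
      · rw [ih j h2 (by omega), zero_smul, map_zero]
      · rw [coeff_smul, A9_coeff W i j h2.le, if_neg (fun h3 => hji h3.symm), smul_zero]
    · intro h2
      exact absurd (Finset.mem_range.2 (by omega)) h2

theorem AI {N k : ℕ} (hN : N ≠ 0) (hk : 4 ≤ k) {a : ℕ → ℂ} (hF : FC N k a) (ha : ∃ n, a n ≠ 0)
    {r : ℕ} (d : Fin r → ℕ) (hd : Function.Injective d) (hd1 : ∀ s, 1 ≤ d s) (J W : ℕ)
    (c : (Fin r → ℕ) × ℕ → ℂ) (hc : ∃ t ∈ Ix r J W, c t ≠ 0) : AA a d J W c ≠ 0 := by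
  intro h0
  obtain ⟨N', hN'⟩ : ∃ N', N' = N * ∏ s, d s := ⟨_, rfl⟩
  have hN'0 : N' ≠ 0 := by
    rw [hN']
    refine mul_ne_zero hN (Finset.prod_ne_zero_iff.2 fun s _ => ?_)
    have := hd1 s
    omega
  have hdv : ∀ s, N * d s ∣ N' := fun s => by
    rw [hN']
    exact mul_dvd_mul_left N (Finset.dvd_prod_of_mem d (Finset.mem_univ s))
  obtain ⟨S, hS⟩ : ∃ S, S = Finset.piAntidiag (Finset.univ : Finset (Fin r)) J := ⟨_, rfl⟩
  obtain ⟨P, hP⟩ : ∃ P : (Fin r → ℕ) → PowerSeries ℂ, ∀ α, P α =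
      ∑ i ∈ Finset.range (W + 1), c (α, i) • zC (Lv W i) := ⟨_, fun _ => rfl⟩
  have hrel : ∑ α ∈ S, P α * Hm (fun s => hs a (d s)) α = 0 := by
    rw [← h0]
    unfold AA Ix
    rw [Finset.sum_product, hS]
    refine Finset.sum_congr rfl fun α _ => ?_
    rw [hP, Finset.sum_mul]
    refine Finset.sum_congr rfl fun i _ => ?_
    rw [smul_mul_assoc]
  obtain ⟨t, ht, hct⟩ := hc
  unfold Ix at ht
  rw [Finset.mem_product, ← hS, Finset.mem_range] at ht
  have hPne : P t.1 ≠ 0 := by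
    intro h1
    rw [hP] at h1
    exact hct (Lv_indep W (fun i => c (t.1, i)) h1 t.2 (by omega))
  have hPm : ∀ α, P α ∈ QQ N' := by
    intro α
    rw [hP]
    refine (QQ N').sum_mem fun i _ => (QQ N').smul_mem ?_ _
    rw [A9_Lv]
    exact (QQ N').mul_mem ((QQ N').pow_mem (zC_dl_mem N') i)
      ((QQ N').pow_mem (zC_e4_mem N') _)
  have hFs : ∀ s, FC N' k (adC a (d s)) := fun s => FC_ad hF (hd1 s) (hdv s)
  obtain ⟨c', v, u, hc', hv, hvA, huA, huv⟩ := kolchin_ostrowski (th ℂ)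
    (fun v x hv h => th_const hv h) (QQ N') (fun f hf => th_mem hf) (fun s => hs a (d s))
    (fun s => by
      rw [th_hs hF.zero (hd1 s)]
      exact (QQ N').smul_mem (fc_mem (hFs s)) _)
    (H18G.polyOf S P) (by
      intro h1
      have h2 := congrArg (MvPolynomial.coeff (Finsupp.equivFunOnFinite.symm t.1)) h1
      rw [H18G.coeff_polyOf, MvPolynomial.coeff_zero] at h2
      have h3 : (⇑(Finsupp.equivFunOnFinite.symm t.1) : Fin r → ℕ) = t.1 := rfl
      rw [h3, if_pos ht.1] at h2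
      exact hPne h2)
    (by
      intro m
      rw [H18G.coeff_polyOf]
      split_ifs
      · exact hPm _
      · exact (QQ N').zero_mem)
    (by rw [H18G.eval_polyOf, hrel])
  obtain ⟨b, hb⟩ : ∃ b, b = bb a d c' := ⟨_, rfl⟩
  have hFb : FC N' k b := by
    rw [hb]
    exact FC_lin Finset.univ (fun s => adC a (d s)) (fun s _ => hFs s) (fun s => c' s * d s)
  obtain ⟨Cg, Kg, hg⟩ := hF.growth
  have hCv : Cv (∑ s, C (c' s) * hs a (d s)) :=
    Cv_sum _ _ fun s _ => Cv_mul (Cv_C _) (Cv_hs a Cg Kg hg (d s) (hd1 s))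
  have hev : ∀ z : ℂ, 0 < z.im → ev v z * EE b 1 z = ev u z := by
    intro z hz
    rw [hb, ← ev_hs hF.zero d hd1 c' z, ← ev_mul (mem_QQ.1 hvA).1 hCv hz, huv]
  obtain ⟨Q, R, hQ, hQR⟩ := laurent hk hFb hvA huA hv hev
  obtain ⟨n₀, hn₀, hbn⟩ := bb_ne hF.zero ha d hd hd1 c' hc'
  rw [← hb] at hbn
  refine EE_noconst' b (k - 1) (by omega) hFb.sum n₀ hn₀ hbn (EE b (k - 1) ((0 : ℝ) : ℂ))
    fun x => ?_
  exact const_of_rat N' hN'0 (fun x : ℝ => EE b (k - 1) (x : ℂ))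
    (EE_cont b (k - 1) (by omega) hFb.sum) Q R hQ hQR x 0

end H41I
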