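import Pool.Agent.Lib.H65Z.Defs
import Pool.Agent.Lib.H6V.Defs
import Pool.Agent.Lib.H41I.KT

/-!
# H41I: analytic independence (Theorem D), definitions

`FC N k a`: a cusp form `Σ a(n) qⁿ` of weight `k` on `Γ₁(N)` with complex coefficients.
`RR`: the algebra of functions of the bottom row `(C, D)` and of `z` generated by the holomorphic functions of `z`, by `C`,
`t = C z + D` and `t⁻¹`.
`IsQ N f`: the series `f` converges and `f(γ z) = Φ (C, D) z` with `Φ ∈ RR` for all `γ = (A B; C D) ∈ Γ₁(N)`.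
-/

namespace H41I

open H53M H6V PowerSeries

/-- What is used of a cusp form `Σ a(n) qⁿ` of weight `k` on `Γ₁(N)`. -/
structure FC (N k : ℕ) (a : ℕ → ℂ) : Prop where
  /-- no constant term -/
  zero : a 0 = 0
  /-- polynomial growth -/
  growth : ∃ (C : ℝ) (K : ℕ), ∀ n, ‖a n‖ ≤ C * ((n : ℝ) + 1) ^ K
  /-- growth on the average -/
  sum : Summable fun n : ℕ => ‖a n‖ / (n : ℝ) ^ (k - 1)
  /-- modularity -/
  trans : ∀ A B C D : ℤ, A * D - B * C = 1 → (N : ℤ) ∣ C → (N : ℤ) ∣ D - 1 → ∀ z : ℂ, 0 < z.im →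
    ev (PowerSeries.mk a) ((A * z + B) / (C * z + D)) =
      (C * z + D) ^ k * ev (PowerSeries.mk a) z

/-- Functions of the bottom row `(C, D)` and of `z`. -/
abbrev Fn : Type := ℤ × ℤ → ℂ → ℂ

/-- The generators: holomorphic functions of `z`, `C`, `t = C z + D` and `t⁻¹`. -/
def IsGen (Φ : Fn) : Prop :=
  (∃ g : ℂ → ℂ, DifferentiableOn ℂ g {z | 0 < z.im} ∧ Φ = fun _ z => g z) ∨
    (Φ = fun e _ => (e.1 : ℂ)) ∨ (Φ = fun e z => (e.1 : ℂ) * z + e.2) ∨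
    (Φ = fun e z => ((e.1 : ℂ) * z + e.2)⁻¹)

/-- The algebra generated by them. -/
noncomputable def RR : Subalgebra ℂ Fn := Algebra.adjoin ℂ {Φ | IsGen Φ}

/-- Quasimodular behaviour. -/
def IsQ (N : ℕ) (f : PowerSeries ℂ) : Prop :=
  Cv f ∧ ∃ Φ ∈ RR, ∀ A B C D : ℤ, A * D - B * C = 1 → (N : ℤ) ∣ C → (N : ℤ) ∣ D - 1 →
    ∀ z : ℂ, 0 < z.im → ev f ((A * z + B) / (C * z + D)) = Φ (C, D) z

/-- The coefficients of `f(d z)`. -/
noncomputable def adC (a : ℕ → ℂ) (d n : ℕ) : ℂ := if d ∣ n then a (n / d) else 0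

end H41I
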